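import Mathlib
import Pool.Agent.H45.DiskPolar

/-!
Second-order version of the lower bound for the mass of a union of disks in an angular sector.
-/

set_option autoImplicit false

open MeasureTheory Set
open scoped ENNReal Real

namespace Pool.Agent.H17.Disk

open Pool.Agent.H45.Disk

/-- Product of the radial and the tangential coordinate of the point `(x, y)` in the direction `φ`. -/
noncomputable def W (x y φ : ℝ) : ℝ :=
  (x * Real.cos φ + y * Real.sin φ) * (y * Real.cos φ - x * Real.sin φ)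

theorem hasDeriv_W (x y φ : ℝ) : HasDerivAt (fun φ => W x y φ)
    ((y * Real.cos φ - x * Real.sin φ) ^ 2 - (x * Real.cos φ + y * Real.sin φ) ^ 2) φ := by
  have hc := Real.hasDerivAt_cos φ
  have hs := Real.hasDerivAt_sin φ
  have h1 : HasDerivAt (fun φ => x * Real.cos φ + y * Real.sin φ)
      (x * (-Real.sin φ) + y * Real.cos φ) φ := (hc.const_mul x).add (hs.const_mul y)
  have h2 : HasDerivAt (fun φ => y * Real.cos φ - x * Real.sin φ)
      (y * (-Real.sin φ) - x * Real.cos φ) φ := (hc.const_mul y).sub (hs.const_mul x)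
  have h3 := h1.mul h2
  have h4 : HasDerivAt (fun φ => W x y φ)
      ((x * -Real.sin φ + y * Real.cos φ) * (y * Real.cos φ - x * Real.sin φ) +
      (x * Real.cos φ + y * Real.sin φ) * (y * -Real.sin φ - x * Real.cos φ)) φ := h3
  convert h4 using 1
  ring

/-- the integrand -/
noncomputable def G (x y r κ D φ : ℝ) : ℝ :=
  r ^ 2 / 2 + r * (x * Real.cos φ + y * Real.sin φ)
    + ((x * Real.cos φ + y * Real.sin φ) ^ 2 - (y * Real.cos φ - x * Real.sin φ) ^ 2) / 2
    - (r - κ) * D

theorem integral_G (x y r κ D s t : ℝ) :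
    ∫ φ in s..t, G x y r κ D φ = r ^ 2 / 2 * (t - s) +
      r * (x * (Real.sin t - Real.sin s) + y * (Real.cos s - Real.cos t))
      + (W x y s - W x y t) / 2 - (r - κ) * D * (t - s) := by
  have hd : ∀ φ ∈ uIcc s t, HasDerivAt (fun φ => r ^ 2 / 2 * φ
      + r * (x * Real.sin φ - y * Real.cos φ) - W x y φ / 2 - (r - κ) * D * φ)
      (G x y r κ D φ) φ := by
    intro φ _
    have hc := Real.hasDerivAt_cos φ
    have hs := Real.hasDerivAt_sin φ
    have hid : HasDerivAt (fun φ : ℝ => φ) 1 φ := hasDerivAt_id φ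
    have h1 : HasDerivAt (fun φ => x * Real.sin φ - y * Real.cos φ)
        (x * Real.cos φ - y * (-Real.sin φ)) φ := (hs.const_mul x).sub (hc.const_mul y)
    have h2 := (((hid.const_mul (r ^ 2 / 2)).add (h1.const_mul r)).sub
      ((hasDeriv_W x y φ).div_const 2)).sub (hid.const_mul ((r - κ) * D))
    have h3 : HasDerivAt (fun φ => r ^ 2 / 2 * φ
      + r * (x * Real.sin φ - y * Real.cos φ) - W x y φ / 2 - (r - κ) * D * φ) _ φ := h2
    refine h3.congr_deriv ?_
    unfold G
    ring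
  have hcont : Continuous (fun φ => G x y r κ D φ) := by unfold G; fun_prop
  rw [intervalIntegral.integral_eq_sub_of_hasDerivAt hd (hcont.intervalIntegrable _ _)]
  ring

theorem arc_lower2 {U : Set (ℝ × ℝ)} {x y r κ D s t : ℝ} (hst : s ≤ t)
    (hD0 : 0 ≤ D) (hD : x ^ 2 + y ^ 2 ≤ D ^ 2) (hDκ : 4 * D ≤ κ) (hr : κ ^ 2 + D ^ 2 ≤ r ^ 2)
    (hr0 : 0 ≤ r)
    (hU : ∀ p : ℝ × ℝ, (p.1 - x) ^ 2 + (p.2 - y) ^ 2 ≤ r ^ 2 → p ∈ U) :
    ENNReal.ofReal (r ^ 2 / 2 * (t - s) +
      r * (x * (Real.sin t - Real.sin s) + y * (Real.cos s - Real.cos t))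
      + (W x y s - W x y t) / 2 - (r - κ) * D * (t - s)) ≤ arc U s t := by
  have hκ : 0 ≤ κ := by linarith
  have hκr : κ ≤ r := by nlinarith [sq_nonneg D]
  have hb := abs_trig_le hD0 hD
  have key : ∀ φ : ℝ, 0 ≤ G x y r κ D φ ∧ ENNReal.ofReal (G x y r κ D φ) ≤ ∫⁻ ρ in Ioi (0:ℝ),
      ENNReal.ofReal ρ * U.indicator 1 (ρ * Real.cos φ, ρ * Real.sin φ) := by
    intro φ
    have hcs := Real.sin_sq_add_cos_sq φ
    obtain ⟨w, hw⟩ : ∃ w, w = x * Real.cos φ + y * Real.sin φ := ⟨_, rfl⟩
    obtain ⟨v, hv⟩ : ∃ v, v = y * Real.cos φ - x * Real.sin φ := ⟨_, rfl⟩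
    have hwD := abs_le.mp (hb φ)
    rw [← hw] at hwD
    have hwv : w ^ 2 + v ^ 2 = x ^ 2 + y ^ 2 := by
      rw [hw, hv]; linear_combination (x ^ 2 + y ^ 2) * hcs
    have hv2 : v ^ 2 ≤ D ^ 2 := by nlinarith [sq_nonneg w]
    have hG : G x y r κ D φ = r ^ 2 / 2 + r * w + (w ^ 2 - v ^ 2) / 2 - (r - κ) * D := by
      unfold G; rw [hw, hv]
    obtain ⟨q, hq⟩ : ∃ q, q = √(r ^ 2 - v ^ 2) := ⟨_, rfl⟩
    have hq2 : q ^ 2 = r ^ 2 - v ^ 2 := by rw [hq]; exact Real.sq_sqrt (by nlinarith)
    have hq0 : 0 ≤ q := by rw [hq]; exact Real.sqrt_nonneg _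
    have hqκ : κ ≤ q := by
      apply le_of_sq_le_sq _ hq0
      rw [hq2]; linarith
    have hqr : q ≤ r := by
      apply le_of_sq_le_sq _ hr0
      rw [hq2]; nlinarith [sq_nonneg v]
    have hG0 : 0 ≤ G x y r κ D φ := by
      rw [hG]
      have h1 : -(r * D) ≤ r * w := by nlinarith
      have h2 : 4 * D * D ≤ κ * D := by nlinarith
      nlinarith [sq_nonneg (r - 2 * D), sq_nonneg w, sq_nonneg D, mul_nonneg hr0 hD0]
    have hR : 0 ≤ w + q := by linarith [hwD.1]
    refine ⟨hG0, ?_⟩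
    calc ENNReal.ofReal (G x y r κ D φ)
        ≤ ENNReal.ofReal ((w + q) ^ 2 / 2) := by
          apply ENNReal.ofReal_le_ofReal
          rw [hG]
          have h1 : r * w - (r - κ) * D ≤ w * q := by
            rcases le_total 0 w with h | h
            · nlinarith [mul_nonneg h (sub_nonneg.mpr hqκ), mul_nonneg (sub_nonneg.mpr hκr) (sub_nonneg.mpr hwD.2)]
            · nlinarith [mul_nonneg (neg_nonneg.mpr h) (sub_nonneg.mpr hqr),
                mul_nonneg (sub_nonneg.mpr hκr) hD0]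
          nlinarith
      _ = ∫⁻ ρ in Ioc (0:ℝ) (w + q), ENNReal.ofReal ρ := (lintegral_ofReal_id hR).symm
      _ ≤ ∫⁻ ρ in Ioc (0:ℝ) (w + q),
            ENNReal.ofReal ρ * U.indicator 1 (ρ * Real.cos φ, ρ * Real.sin φ) := by
          apply setLIntegral_mono' measurableSet_Ioc
          intro ρ hρ
          have hmem : (ρ * Real.cos φ, ρ * Real.sin φ) ∈ U := by
            apply hU
            simp only
            have h1 : (ρ * Real.cos φ - x) ^ 2 + (ρ * Real.sin φ - y) ^ 2
                = (ρ - w) ^ 2 + (x ^ 2 + y ^ 2) - w ^ 2 := by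
              rw [hw]
              linear_combination (ρ ^ 2) * hcs
            rw [h1, ← hwv]
            have h2 : (ρ - w) ^ 2 ≤ q ^ 2 := by
              apply sq_le_sq'
              · linarith [hρ.1, hwD.2]
              · linarith [hρ.2]
            linarith
          rw [Set.indicator_of_mem hmem]
          simp
      _ ≤ _ := by
          apply lintegral_mono_set
          exact Ioc_subset_Ioi_self
  have hcont : Continuous (fun φ => G x y r κ D φ) := by unfold G; fun_prop
  rw [← integral_G, intervalIntegral.integral_of_le hst, ofReal_integral_eq_lintegral_ofReal]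
  · unfold arc
    apply setLIntegral_mono' measurableSet_Ioc
    intro φ _
    exact (key φ).2
  · exact (hcont.integrableOn_Icc).mono_set Ioc_subset_Icc_self
  · filter_upwards with φ
    exact (key φ).1

end Pool.Agent.H17.Disk
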