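import Mathlib
import Pool.Agent.H45.DiskHex

/-!
The lemma `hex_main` of helper45 with more of the data of its proof in the conclusion.
-/

set_option autoImplicit false

namespace Pool.Agent.H17.Disk

open Pool.Agent.H45.Disk

theorem arith3 (M0 M1 M2 M3 M4 M5 x0 x1 x2 x3 x4 x5 y0 y1 y2 y3 y4 y5 k0 k1 k2 k3 k4 k5 c0 c1 c2 c3 c4 c5 n : ℤ)
    (hk0 : 0 ≤ k0)
    (hx0 : x0 ≤ M1 - 1 + k0)
    (hy0 : y0 ≤ M0 - 1 + k0)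
    (hd0 : M0 ≤ x0 + y5)
    (hc0 : c0 ≤ x0 - k0 - (M0 - y5) + 1)
    (hk1 : 0 ≤ k1)
    (hx1 : x1 ≤ M2 - 1 + k1)
    (hy1 : y1 ≤ M1 - 1 + k1)
    (hd1 : M1 ≤ x1 + y0)
    (hc1 : c1 ≤ x1 - k1 - (M1 - y0) + 1)
    (hk2 : 0 ≤ k2)
    (hx2 : x2 ≤ M3 - 1 + k2)
    (hy2 : y2 ≤ M2 - 1 + k2)
    (hd2 : M2 ≤ x2 + y1)
    (hc2 : c2 ≤ x2 - k2 - (M2 - y1) + 1)
    (hk3 : 0 ≤ k3)
    (hx3 : x3 ≤ M4 - 1 + k3)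
    (hy3 : y3 ≤ M3 - 1 + k3)
    (hd3 : M3 ≤ x3 + y2)
    (hc3 : c3 ≤ x3 - k3 - (M3 - y2) + 1)
    (hk4 : 0 ≤ k4)
    (hx4 : x4 ≤ M5 - 1 + k4)
    (hy4 : y4 ≤ M4 - 1 + k4)
    (hd4 : M4 ≤ x4 + y3)
    (hc4 : c4 ≤ x4 - k4 - (M4 - y3) + 1)
    (hk5 : 0 ≤ k5)
    (hx5 : x5 ≤ M0 - 1 + k5)
    (hy5 : y5 ≤ M5 - 1 + k5)
    (hd5 : M5 ≤ x5 + y4)
    (hc5 : c5 ≤ x5 - k5 - (M5 - y4) + 1)
    (hL23 : 23 ≤ M0 + M1 + M2 + M3 + M4 + M5) (hL25 : M0 + M1 + M2 + M3 + M4 + M5 ≤ 25)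
    (hcard : 54 ≤ n + c0 + c1 + c2 + c3 + c4 + c5)
    (hn : 12 * n ≤ (M0 + M1 + M2 + M3 + M4 + M5 - 6) ^ 2 + 6 * (M0 + M1 + M2 + M3 + M4 + M5 - 6) + 12
      - (2 * (M4 + M1) - (M3 + M0) - (M5 + M2)) ^ 2 - 3 * ((M3 + M0) - (M5 + M2)) ^ 2
      - 3 * ((M3 + M5 - M4) - (M0 + M2 - M1)) ^ 2) :
    (M0 + M1 + M2 + M3 + M4 + M5 = 25 ∧ 33 ≤ x0 + y0 + x1 + y1 + x2 + y2 + x3 + y3 + x4 + y4 + x5 + y5) ∨
    (M0 + M1 + M2 + M3 + M4 + M5 = 24 ∧ 36 ≤ x0 + y0 + x1 + y1 + x2 + y2 + x3 + y3 + x4 + y4 + x5 + y5) ∨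
    (M0 + M1 + M2 + M3 + M4 + M5 = 23 ∧ 42 ≤ x0 + y0 + x1 + y1 + x2 + y2 + x3 + y3 + x4 + y4 + x5 + y5) ∨
    (M0 + M1 + M2 + M3 + M4 + M5 = 24 ∧ x0 + y0 + x1 + y1 + x2 + y2 + x3 + y3 + x4 + y4 + x5 + y5 = 35 ∧ (2 * (M4 + M1) - (M3 + M0) - (M5 + M2) = 0 ∧ (M3 + M0) - (M5 + M2) = 0 ∧ (M3 + M5 - M4) - (M0 + M2 - M1) = 0) ∧ x0 ≤ M1 - 1 ∧ y0 ≤ M0 - 1 ∧ x1 ≤ M2 - 1 ∧ y1 ≤ M1 - 1 ∧ x2 ≤ M3 - 1 ∧ y2 ≤ M2 - 1 ∧ x3 ≤ M4 - 1 ∧ y3 ≤ M3 - 1 ∧ x4 ≤ M5 - 1 ∧ y4 ≤ M4 - 1 ∧ x5 ≤ M0 - 1 ∧ y5 ≤ M5 - 1) := by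
  obtain ⟨L, hLd⟩ : ∃ L : ℤ, L = M0 + M1 + M2 + M3 + M4 + M5 := ⟨_, rfl⟩
  rw [← hLd] at hn hL23 hL25
  obtain ⟨p, hp⟩ : ∃ p : ℤ, p = 2 * (M4 + M1) - (M3 + M0) - (M5 + M2) := ⟨_, rfl⟩
  obtain ⟨q, hq⟩ : ∃ q : ℤ, q = (M3 + M0) - (M5 + M2) := ⟨_, rfl⟩
  obtain ⟨w, hw⟩ : ∃ w : ℤ, w = (M3 + M5 - M4) - (M0 + M2 - M1) := ⟨_, rfl⟩
  rw [← hp, ← hq, ← hw] at hn
  have hp2 := sq_nonneg p
  have hq2 := sq_nonneg q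
  have hw2 := sq_nonneg w
  obtain ⟨T, hTd⟩ : ∃ T : ℤ, T = x0 + y0 + x1 + y1 + x2 + y2 + x3 + y3 + x4 + y4 + x5 + y5 := ⟨_, rfl⟩
  obtain ⟨K, hKd⟩ : ∃ K : ℤ, K = k0 + k1 + k2 + k3 + k4 + k5 := ⟨_, rfl⟩
  have hTK : 54 + L ≤ n + T - K + 6 := by linarith
  have hTK2 : T ≤ 2 * L - 12 + 2 * K := by linarith
  have hK0 : 0 ≤ K := by linarith
  rw [← hLd, ← hTd]
  have hcases : L = 23 ∨ L = 24 ∨ L = 25 := by clear hn hc0 hc1 hc2 hc3 hc4 hc5 hcard; omega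
  rcases hcases with h | h | h
  · rw [h] at hn
    have hn' : n ≤ 33 := by
      have : 12 * n ≤ 12 * 33 + 8 := by linarith
      omega
    right; right; left
    exact ⟨h, by linarith⟩
  · rw [h] at hn
    have hn' : n ≤ 37 := by linarith
    right
    by_cases hT : 36 ≤ T
    · left; exact ⟨h, hT⟩
    · right; right
      have hT' : T ≤ 35 := by linarith [Int.lt_iff_add_one_le.mp (not_le.mp hT)]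
      have hK1 : K = 0 := le_antisymm (by linarith) hK0
      have hz : p ^ 2 + 3 * q ^ 2 + 3 * w ^ 2 ≤ 0 := by linarith
      have hp0 : p = 0 := pow_eq_zero_iff (two_ne_zero) |>.mp (le_antisymm (by linarith) hp2)
      have hq0 : q = 0 := pow_eq_zero_iff (two_ne_zero) |>.mp (le_antisymm (by linarith) hq2)
      have hw0 : w = 0 := pow_eq_zero_iff (two_ne_zero) |>.mp (le_antisymm (by linarith) hw2)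
      refine ⟨h, le_antisymm hT' (by linarith), ⟨hp ▸ hp0, hq ▸ hq0, hw ▸ hw0⟩, ?_⟩
      refine ⟨?_, ?_, ?_, ?_, ?_, ?_, ?_, ?_, ?_, ?_, ?_, ?_⟩ <;> linarith
  · rw [h] at hn
    have hn' : n ≤ 40 := by
      have : 12 * n ≤ 12 * 40 + 7 := by linarith
      omega
    left
    exact ⟨h, by linarith⟩

set_option maxHeartbeats 4000000 in
theorem hex_main2 (s : Finset (ℤ × ℤ)) (hs : s.card = 54) :
    ∃ u0 ∈ s, ∃ v0 ∈ s, ∃ u1 ∈ s, ∃ v1 ∈ s, ∃ u2 ∈ s, ∃ v2 ∈ s, ∃ u3 ∈ s, ∃ v3 ∈ s, ∃ u4 ∈ s, ∃ v4 ∈ s, ∃ u5 ∈ s, ∃ v5 ∈ s,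
    ∃ M0 M1 M2 M3 M4 M5 x0 x1 x2 x3 x4 x5 y0 y1 y2 y3 y4 y5 : ℤ,
    (-u0.1 = M0 ∧ -u0.1 - u0.2 = x0 ∧ -v0.1 - v0.2 = M1 ∧ -v0.1 = y0) ∧
    (-u1.1 - u1.2 = M1 ∧ -u1.2 = x1 ∧ -v1.2 = M2 ∧ -v1.1 - v1.2 = y1) ∧
    (-u2.2 = M2 ∧ u2.1 = x2 ∧ v2.1 = M3 ∧ -v2.2 = y2) ∧
    (u3.1 = M3 ∧ u3.1 + u3.2 = x3 ∧ v3.1 + v3.2 = M4 ∧ v3.1 = y3) ∧
    (u4.1 + u4.2 = M4 ∧ u4.2 = x4 ∧ v4.2 = M5 ∧ v4.1 + v4.2 = y4) ∧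
    (u5.2 = M5 ∧ -u5.1 = x5 ∧ -v5.1 = M0 ∧ v5.2 = y5) ∧
    (∀ p ∈ s, -p.1 ≤ M0 ∧ -p.1 - p.2 ≤ M1 ∧ -p.2 ≤ M2 ∧ p.1 ≤ M3 ∧ p.1 + p.2 ≤ M4 ∧ p.2 ≤ M5) ∧
    (M0 ≤ x0 + y5 ∧ M1 ≤ x1 + y0 ∧ M2 ≤ x2 + y1 ∧ M3 ≤ x3 + y2 ∧ M4 ≤ x4 + y3 ∧ M5 ≤ x5 + y4) ∧
    ((26 ≤ M0 + M1 + M2 + M3 + M4 + M5 ∧ M0 + M1 + M2 + M3 + M4 + M5 ≤ x0 + y0 + x1 + y1 + x2 + y2 + x3 + y3 + x4 + y4 + x5 + y5) ∨
     (M0 + M1 + M2 + M3 + M4 + M5 = 25 ∧ 33 ≤ x0 + y0 + x1 + y1 + x2 + y2 + x3 + y3 + x4 + y4 + x5 + y5) ∨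
     (M0 + M1 + M2 + M3 + M4 + M5 = 24 ∧ 36 ≤ x0 + y0 + x1 + y1 + x2 + y2 + x3 + y3 + x4 + y4 + x5 + y5) ∨
     (M0 + M1 + M2 + M3 + M4 + M5 = 23 ∧ 42 ≤ x0 + y0 + x1 + y1 + x2 + y2 + x3 + y3 + x4 + y4 + x5 + y5) ∨
     (M0 + M1 + M2 + M3 + M4 + M5 = 24 ∧ x0 + y0 + x1 + y1 + x2 + y2 + x3 + y3 + x4 + y4 + x5 + y5 = 35 ∧ (2 * (M4 + M1) - (M3 + M0) - (M5 + M2) = 0 ∧ (M3 + M0) - (M5 + M2) = 0 ∧ (M3 + M5 - M4) - (M0 + M2 - M1) = 0) ∧ x0 ≤ M1 - 1 ∧ y0 ≤ M0 - 1 ∧ x1 ≤ M2 - 1 ∧ y1 ≤ M1 - 1 ∧ x2 ≤ M3 - 1 ∧ y2 ≤ M2 - 1 ∧ x3 ≤ M4 - 1 ∧ y3 ≤ M3 - 1 ∧ x4 ≤ M5 - 1 ∧ y4 ≤ M4 - 1 ∧ x5 ≤ M0 - 1 ∧ y5 ≤ M5 - 1)) := by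
  have hne : s.Nonempty := by rw [← Finset.card_pos]; omega
  obtain ⟨u0, hu0, hum0, hun0⟩ := exists_extreme s hne (fun p => -p.1) (fun p => -p.1 - p.2)
  obtain ⟨v0, hv0, hvm0, hvn0⟩ := exists_extreme s hne (fun p => -p.1 - p.2) (fun p => -p.1)
  obtain ⟨u1, hu1, hum1, hun1⟩ := exists_extreme s hne (fun p => -p.1 - p.2) (fun p => -p.2)
  obtain ⟨v1, hv1, hvm1, hvn1⟩ := exists_extreme s hne (fun p => -p.2) (fun p => -p.1 - p.2)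
  obtain ⟨u2, hu2, hum2, hun2⟩ := exists_extreme s hne (fun p => -p.2) (fun p => p.1)
  obtain ⟨v2, hv2, hvm2, hvn2⟩ := exists_extreme s hne (fun p => p.1) (fun p => -p.2)
  obtain ⟨u3, hu3, hum3, hun3⟩ := exists_extreme s hne (fun p => p.1) (fun p => p.1 + p.2)
  obtain ⟨v3, hv3, hvm3, hvn3⟩ := exists_extreme s hne (fun p => p.1 + p.2) (fun p => p.1)
  obtain ⟨u4, hu4, hum4, hun4⟩ := exists_extreme s hne (fun p => p.1 + p.2) (fun p => p.2)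
  obtain ⟨v4, hv4, hvm4, hvn4⟩ := exists_extreme s hne (fun p => p.2) (fun p => p.1 + p.2)
  obtain ⟨u5, hu5, hum5, hun5⟩ := exists_extreme s hne (fun p => p.2) (fun p => -p.1)
  obtain ⟨v5, hv5, hvm5, hvn5⟩ := exists_extreme s hne (fun p => -p.1) (fun p => p.2)
  obtain ⟨M0, hM0⟩ : ∃ M : ℤ, -u0.1 = M := ⟨_, rfl⟩
  obtain ⟨M1, hM1⟩ : ∃ M : ℤ, -u1.1 - u1.2 = M := ⟨_, rfl⟩
  obtain ⟨M2, hM2⟩ : ∃ M : ℤ, -u2.2 = M := ⟨_, rfl⟩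
  obtain ⟨M3, hM3⟩ : ∃ M : ℤ, u3.1 = M := ⟨_, rfl⟩
  obtain ⟨M4, hM4⟩ : ∃ M : ℤ, u4.1 + u4.2 = M := ⟨_, rfl⟩
  obtain ⟨M5, hM5⟩ : ∃ M : ℤ, u5.2 = M := ⟨_, rfl⟩
  have e0 : -v0.1 - v0.2 = M1 := (le_antisymm (hum1 v0 hv0) (hvm0 u1 hu1)).trans hM1
  have e1 : -v1.2 = M2 := (le_antisymm (hum2 v1 hv1) (hvm1 u2 hu2)).trans hM2
  have e2 : v2.1 = M3 := (le_antisymm (hum3 v2 hv2) (hvm2 u3 hu3)).trans hM3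
  have e3 : v3.1 + v3.2 = M4 := (le_antisymm (hum4 v3 hv3) (hvm3 u4 hu4)).trans hM4
  have e4 : v4.2 = M5 := (le_antisymm (hum5 v4 hv4) (hvm4 u5 hu5)).trans hM5
  have e5 : -v5.1 = M0 := (le_antisymm (hum0 v5 hv5) (hvm5 u0 hu0)).trans hM0
  have hm0 : ∀ p ∈ s, -p.1 ≤ M0 := fun p hp => (hum0 p hp).trans hM0.le
  have hm1 : ∀ p ∈ s, -p.1 - p.2 ≤ M1 := fun p hp => (hum1 p hp).trans hM1.le
  have hm2 : ∀ p ∈ s, -p.2 ≤ M2 := fun p hp => (hum2 p hp).trans hM2.le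
  have hm3 : ∀ p ∈ s, p.1 ≤ M3 := fun p hp => (hum3 p hp).trans hM3.le
  have hm4 : ∀ p ∈ s, p.1 + p.2 ≤ M4 := fun p hp => (hum4 p hp).trans hM4.le
  have hm5 : ∀ p ∈ s, p.2 ≤ M5 := fun p hp => (hum5 p hp).trans hM5.le
  obtain ⟨x0, hx0⟩ : ∃ x : ℤ, -u0.1 - u0.2 = x := ⟨_, rfl⟩
  obtain ⟨y0, hy0⟩ : ∃ y : ℤ, -v0.1 = y := ⟨_, rfl⟩
  obtain ⟨x1, hx1⟩ : ∃ x : ℤ, -u1.2 = x := ⟨_, rfl⟩
  obtain ⟨y1, hy1⟩ : ∃ y : ℤ, -v1.1 - v1.2 = y := ⟨_, rfl⟩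
  obtain ⟨x2, hx2⟩ : ∃ x : ℤ, u2.1 = x := ⟨_, rfl⟩
  obtain ⟨y2, hy2⟩ : ∃ y : ℤ, -v2.2 = y := ⟨_, rfl⟩
  obtain ⟨x3, hx3⟩ : ∃ x : ℤ, u3.1 + u3.2 = x := ⟨_, rfl⟩
  obtain ⟨y3, hy3⟩ : ∃ y : ℤ, v3.1 = y := ⟨_, rfl⟩
  obtain ⟨x4, hx4⟩ : ∃ x : ℤ, u4.2 = x := ⟨_, rfl⟩
  obtain ⟨y4, hy4⟩ : ∃ y : ℤ, v4.1 + v4.2 = y := ⟨_, rfl⟩
  obtain ⟨x5, hx5⟩ : ∃ x : ℤ, -u5.1 = x := ⟨_, rfl⟩
  obtain ⟨y5, hy5⟩ : ∃ y : ℤ, v5.2 = y := ⟨_, rfl⟩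
  have hun0' : ∀ q ∈ s, -q.1 = M0 → -q.1 - q.2 ≤ x0 :=
    fun q hq h => (hun0 q hq (h.trans hM0.symm)).trans hx0.le
  have hvn0' : ∀ q ∈ s, -q.1 - q.2 = M1 → -q.1 ≤ y0 :=
    fun q hq h => (hvn0 q hq (h.trans e0.symm)).trans hy0.le
  have hun1' : ∀ q ∈ s, -q.1 - q.2 = M1 → -q.2 ≤ x1 :=
    fun q hq h => (hun1 q hq (h.trans hM1.symm)).trans hx1.le
  have hvn1' : ∀ q ∈ s, -q.2 = M2 → -q.1 - q.2 ≤ y1 :=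
    fun q hq h => (hvn1 q hq (h.trans e1.symm)).trans hy1.le
  have hun2' : ∀ q ∈ s, -q.2 = M2 → q.1 ≤ x2 :=
    fun q hq h => (hun2 q hq (h.trans hM2.symm)).trans hx2.le
  have hvn2' : ∀ q ∈ s, q.1 = M3 → -q.2 ≤ y2 :=
    fun q hq h => (hvn2 q hq (h.trans e2.symm)).trans hy2.le
  have hun3' : ∀ q ∈ s, q.1 = M3 → q.1 + q.2 ≤ x3 :=
    fun q hq h => (hun3 q hq (h.trans hM3.symm)).trans hx3.le
  have hvn3' : ∀ q ∈ s, q.1 + q.2 = M4 → q.1 ≤ y3 :=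
    fun q hq h => (hvn3 q hq (h.trans e3.symm)).trans hy3.le
  have hun4' : ∀ q ∈ s, q.1 + q.2 = M4 → q.2 ≤ x4 :=
    fun q hq h => (hun4 q hq (h.trans hM4.symm)).trans hx4.le
  have hvn4' : ∀ q ∈ s, q.2 = M5 → q.1 + q.2 ≤ y4 :=
    fun q hq h => (hvn4 q hq (h.trans e4.symm)).trans hy4.le
  have hun5' : ∀ q ∈ s, q.2 = M5 → -q.1 ≤ x5 :=
    fun q hq h => (hun5 q hq (h.trans hM5.symm)).trans hx5.le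
  have hvn5' : ∀ q ∈ s, -q.1 = M0 → q.2 ≤ y5 :=
    fun q hq h => (hvn5 q hq (h.trans e5.symm)).trans hy5.le
  clear hum0 hun0 hvm0 hvn0 hum1 hun1 hvm1 hvn1 hum2 hun2 hvm2 hvn2 hum3 hun3 hvm3 hvn3 hum4 hun4 hvm4 hvn4 hum5 hun5 hvm5 hvn5
  have ax0 : x0 ≤ M1 := hx0.symm.le.trans (hm1 u0 hu0)
  have ay0 : y0 ≤ M0 := hy0.symm.le.trans (hm0 v0 hv0)
  have ax1 : x1 ≤ M2 := hx1.symm.le.trans (hm2 u1 hu1)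
  have ay1 : y1 ≤ M1 := hy1.symm.le.trans (hm1 v1 hv1)
  have ax2 : x2 ≤ M3 := hx2.symm.le.trans (hm3 u2 hu2)
  have ay2 : y2 ≤ M2 := hy2.symm.le.trans (hm2 v2 hv2)
  have ax3 : x3 ≤ M4 := hx3.symm.le.trans (hm4 u3 hu3)
  have ay3 : y3 ≤ M3 := hy3.symm.le.trans (hm3 v3 hv3)
  have ax4 : x4 ≤ M5 := hx4.symm.le.trans (hm5 u4 hu4)
  have ay4 : y4 ≤ M4 := hy4.symm.le.trans (hm4 v4 hv4)
  have ax5 : x5 ≤ M0 := hx5.symm.le.trans (hm0 u5 hu5)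
  have ay5 : y5 ≤ M5 := hy5.symm.le.trans (hm5 v5 hv5)
  have d1 : M1 ≤ x1 + y0 := by
    have h := hvn0' u1 hu1 hM1
    linarith [hM1, hx1]
  have cb0 : y0 = M0 → M1 ≤ x0 := fun h => e0.symm.le.trans (hun0' v0 hv0 (hy0.trans h))
  have d2 : M2 ≤ x2 + y1 := by
    have h := hvn1' u2 hu2 hM2
    linarith [hM2, hx2]
  have cb1 : y1 = M1 → M2 ≤ x1 := fun h => e1.symm.le.trans (hun1' v1 hv1 (hy1.trans h))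
  have d3 : M3 ≤ x3 + y2 := by
    have h := hvn2' u3 hu3 hM3
    linarith [hM3, hx3]
  have cb2 : y2 = M2 → M3 ≤ x2 := fun h => e2.symm.le.trans (hun2' v2 hv2 (hy2.trans h))
  have d4 : M4 ≤ x4 + y3 := by
    have h := hvn3' u4 hu4 hM4
    linarith [hM4, hx4]
  have cb3 : y3 = M3 → M4 ≤ x3 := fun h => e3.symm.le.trans (hun3' v3 hv3 (hy3.trans h))
  have d5 : M5 ≤ x5 + y4 := by
    have h := hvn4' u5 hu5 hM5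
    linarith [hM5, hx5]
  have cb4 : y4 = M4 → M5 ≤ x4 := fun h => e4.symm.le.trans (hun4' v4 hv4 (hy4.trans h))
  have d0 : M0 ≤ x0 + y5 := by
    have h := hvn5' u0 hu0 hM0
    linarith [hM0, hx0]
  have cb5 : y5 = M5 → M0 ≤ x5 := fun h => e5.symm.le.trans (hun5' v5 hv5 (hy5.trans h))
  have l0 : M0 ≤ M1 + M5 := by linarith [d0, ax0, ay5]
  have l1 : M1 ≤ M2 + M0 := by linarith [d1, ax1, ay0]
  have l2 : M2 ≤ M3 + M1 := by linarith [d2, ax2, ay1]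
  have l3 : M3 ≤ M4 + M2 := by linarith [d3, ax3, ay2]
  have l4 : M4 ≤ M5 + M3 := by linarith [d4, ax4, ay3]
  have l5 : M5 ≤ M0 + M4 := by linarith [d5, ax5, ay4]
  have w0 : 0 ≤ M0 + M3 := by
    have h1 := hm3 u0 hu0
    linarith [hM0]
  have w1 : 0 ≤ M1 + M4 := by
    have h1 := hm4 u1 hu1
    linarith [hM1]
  have w2 : 0 ≤ M2 + M5 := by
    have h1 := hm5 u2 hu2
    linarith [hM2]
  have hS := hex_count' s (-M0) M3 (-M2) M5 (-M1) M4 (by linarith) (by linarith) (by linarith)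
    (by linarith) (by linarith) (by linarith) (by linarith) (by linarith) (by linarith)
    (fun p hp => ⟨by linarith [hm0 p hp], hm3 p hp, by linarith [hm2 p hp], hm5 p hp,
      by linarith [hm1 p hp], hm4 p hp⟩) _ _ _ rfl rfl rfl
  rw [hs] at hS
  refine ⟨u0, hu0, v0, hv0, u1, hu1, v1, hv1, u2, hu2, v2, hv2, u3, hu3, v3, hv3, u4, hu4, v4, hv4,
    u5, hu5, v5, hv5, M0, M1, M2, M3, M4, M5, x0, x1, x2, x3, x4, x5, y0, y1, y2, y3, y4, y5,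
    ⟨hM0, hx0, e0, hy0⟩, ⟨hM1, hx1, e1, hy1⟩, ⟨hM2, hx2, e2, hy2⟩, ⟨hM3, hx3, e3, hy3⟩,
    ⟨hM4, hx4, e4, hy4⟩, ⟨hM5, hx5, e5, hy5⟩,
    fun p hp => ⟨hm0 p hp, hm1 p hp, hm2 p hp, hm3 p hp, hm4 p hp, hm5 p hp⟩,
    ⟨d0, d1, d2, d3, d4, d5⟩, ?_⟩
  by_cases hL : 26 ≤ M0 + M1 + M2 + M3 + M4 + M5
  · left; refine ⟨hL, ?_⟩; linarith
  right
  have hL' : M0 + M1 + M2 + M3 + M4 + M5 ≤ 25 := by
    have := Int.lt_iff_add_one_le.mp (not_le.mp hL)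
    linarith
  have hA := arith1 M0 M1 M2 M3 M4 M5 (by linarith) (by linarith) (by linarith) (by linarith)
    (by linarith) (by linarith) w0 w1 w2 hL' (by
      have := sq_nonneg (M3 + M5 - M4 - (-M1 - -M0 - -M2))
      push_cast at hS
      nlinarith [hS])
  obtain ⟨hL23, hA1, hB1, hC1⟩ := hA
  obtain ⟨t, ht⟩ : ∃ t : Finset (ℤ × ℤ), t = s.filter (fun p => -p.1 < M0 ∧ -p.1 - p.2 < M1 ∧ -p.2 < M2 ∧ p.1 < M3 ∧ p.1 + p.2 < M4 ∧ p.2 < M5) := ⟨_, rfl⟩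
  have hT := hex_count' t (-M0 + 1) (M3 - 1) (-M2 + 1) (M5 - 1) (-M1 + 1) (M4 - 1) (by linarith)
    (by linarith) (by linarith) (by linarith) (by linarith) (by linarith) (by linarith)
    (by linarith) (by linarith)
    (fun p hp => by
      rw [ht, Finset.mem_filter] at hp
      obtain ⟨-, h0, h1, h2, h3, h4, h5⟩ := hp
      refine ⟨by omega, by omega, by omega, by omega, by omega, by omega⟩) _ _ _ rfl rfl rfl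
  obtain ⟨k0, hk0⟩ := k_exists x0 M1
  obtain ⟨k1, hk1⟩ := k_exists x1 M2
  obtain ⟨k2, hk2⟩ := k_exists x2 M3
  obtain ⟨k3, hk3⟩ := k_exists x3 M4
  obtain ⟨k4, hk4⟩ := k_exists x4 M5
  obtain ⟨k5, hk5⟩ := k_exists x5 M0
  have hc0 := side_card s (fun p => -p.1 - p.2) (fun p => -p.1 = M0 ∧ -p.1 - p.2 < M1)
    (M0 - y5) (x0 - k0)
    (by
      rintro p q ⟨hp, -⟩ ⟨hq, -⟩ hpq
      have hpq1 : -p.1 - p.2 = -q.1 - q.2 := hpq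
      apply Prod.ext <;> linarith)
    (fun q hq hq2 => side_bd (hq := q.2) (by ring) (hun0' q hq hq2.1)
      (hvn5' q hq hq2.1) hq2.1 hq2.2 hk0)
    (by have := kk_aux hk0; linarith)
  have hc1 := side_card s (fun p => -p.2) (fun p => -p.1 - p.2 = M1 ∧ -p.2 < M2)
    (M1 - y0) (x1 - k1)
    (by
      rintro p q ⟨hp, -⟩ ⟨hq, -⟩ hpq
      have hpq1 : -p.2 = -q.2 := hpq
      apply Prod.ext <;> linarith)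
    (fun q hq hq2 => side_bd (hq := -q.1) (by ring) (hun1' q hq hq2.1)
      (hvn0' q hq hq2.1) hq2.1 hq2.2 hk1)
    (by have := kk_aux hk1; linarith)
  have hc2 := side_card s (fun p => p.1) (fun p => -p.2 = M2 ∧ p.1 < M3)
    (M2 - y1) (x2 - k2)
    (by
      rintro p q ⟨hp, -⟩ ⟨hq, -⟩ hpq
      have hpq1 : p.1 = q.1 := hpq
      apply Prod.ext <;> linarith)
    (fun q hq hq2 => side_bd (hq := -q.1 - q.2) (by ring) (hun2' q hq hq2.1)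
      (hvn1' q hq hq2.1) hq2.1 hq2.2 hk2)
    (by have := kk_aux hk2; linarith)
  have hc3 := side_card s (fun p => p.1 + p.2) (fun p => p.1 = M3 ∧ p.1 + p.2 < M4)
    (M3 - y2) (x3 - k3)
    (by
      rintro p q ⟨hp, -⟩ ⟨hq, -⟩ hpq
      have hpq1 : p.1 + p.2 = q.1 + q.2 := hpq
      apply Prod.ext <;> linarith)
    (fun q hq hq2 => side_bd (hq := -q.2) (by ring) (hun3' q hq hq2.1)
      (hvn2' q hq hq2.1) hq2.1 hq2.2 hk3)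
    (by have := kk_aux hk3; linarith)
  have hc4 := side_card s (fun p => p.2) (fun p => p.1 + p.2 = M4 ∧ p.2 < M5)
    (M4 - y3) (x4 - k4)
    (by
      rintro p q ⟨hp, -⟩ ⟨hq, -⟩ hpq
      have hpq1 : p.2 = q.2 := hpq
      apply Prod.ext <;> linarith)
    (fun q hq hq2 => side_bd (hq := q.1) (by ring) (hun4' q hq hq2.1)
      (hvn3' q hq hq2.1) hq2.1 hq2.2 hk4)
    (by have := kk_aux hk4; linarith)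
  have hc5 := side_card s (fun p => -p.1) (fun p => p.2 = M5 ∧ -p.1 < M0)
    (M5 - y4) (x5 - k5)
    (by
      rintro p q ⟨hp, -⟩ ⟨hq, -⟩ hpq
      have hpq1 : -p.1 = -q.1 := hpq
      apply Prod.ext <;> linarith)
    (fun q hq hq2 => side_bd (hq := q.1 + q.2) (by ring) (hun5' q hq hq2.1)
      (hvn4' q hq hq2.1) hq2.1 hq2.2 hk5)
    (by have := kk_aux hk5; linarith)
  have hcover : s ⊆ t ∪ (s.filter (fun p => -p.1 = M0 ∧ -p.1 - p.2 < M1) ∪ (s.filter (fun p => -p.1 - p.2 = M1 ∧ -p.2 < M2) ∪ (s.filter (fun p => -p.2 = M2 ∧ p.1 < M3) ∪ (s.filter (fun p => p.1 = M3 ∧ p.1 + p.2 < M4) ∪ (s.filter (fun p => p.1 + p.2 = M4 ∧ p.2 < M5) ∪ (s.filter (fun p => p.2 = M5 ∧ -p.1 < M0))))))) := by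
    intro p hp
    have h0 := hm0 p hp
    have h1 := hm1 p hp
    have h2 := hm2 p hp
    have h3 := hm3 p hp
    have h4 := hm4 p hp
    have h5 := hm5 p hp
    simp only [ht, Finset.mem_union, Finset.mem_filter, hp, true_and]
    exact cover_aux h0 h1 h2 h3 h4 h5 hL23
  have hcard := Finset.card_le_card hcover
  have hcard2 : 54 ≤ t.card + ((s.filter (fun p => -p.1 = M0 ∧ -p.1 - p.2 < M1)).card + ((s.filter (fun p => -p.1 - p.2 = M1 ∧ -p.2 < M2)).card + ((s.filter (fun p => -p.2 = M2 ∧ p.1 < M3)).card + ((s.filter (fun p => p.1 = M3 ∧ p.1 + p.2 < M4)).card + ((s.filter (fun p => p.1 + p.2 = M4 ∧ p.2 < M5)).card + ((s.filter (fun p => p.2 = M5 ∧ -p.1 < M0)).card)))))) := by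
    rw [hs] at hcard
    refine hcard.trans ?_
    refine (Finset.card_union_le _ _).trans ?_
    refine Nat.add_le_add_left ((Finset.card_union_le _ _).trans ?_) _
    refine Nat.add_le_add_left ((Finset.card_union_le _ _).trans ?_) _
    refine Nat.add_le_add_left ((Finset.card_union_le _ _).trans ?_) _
    refine Nat.add_le_add_left ((Finset.card_union_le _ _).trans ?_) _
    exact Nat.add_le_add_left (Finset.card_union_le _ _) _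
  have hfin := arith3 M0 M1 M2 M3 M4 M5 x0 x1 x2 x3 x4 x5 y0 y1 y2 y3 y4 y5 k0 k1 k2 k3 k4 k5
    _ _ _ _ _ _ (t.card : ℤ)
    (kk_aux hk0).1 (kx_aux ax0 hk0) (ky_aux ax0 ay0 hk0 cb0) d0 hc0
    (kk_aux hk1).1 (kx_aux ax1 hk1) (ky_aux ax1 ay1 hk1 cb1) d1 hc1
    (kk_aux hk2).1 (kx_aux ax2 hk2) (ky_aux ax2 ay2 hk2 cb2) d2 hc2
    (kk_aux hk3).1 (kx_aux ax3 hk3) (ky_aux ax3 ay3 hk3 cb3) d3 hc3
    (kk_aux hk4).1 (kx_aux ax4 hk4) (ky_aux ax4 ay4 hk4 cb4) d4 hc4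
    (kk_aux hk5).1 (kx_aux ax5 hk5) (ky_aux ax5 ay5 hk5 cb5) d5 hc5
    hL23 hL' (by
      have h := hcard2
      zify at h
      linarith) (by
      have e : (M3 - 1 - (-M0 + 1)) + (M5 - 1 - (-M2 + 1)) + (M4 - 1 - (-M1 + 1))
        = M0 + M1 + M2 + M3 + M4 + M5 - 6 := by ring
      rw [e] at hT
      have e2 : 2 * (M4 - 1 - (-M1 + 1)) - (M3 - 1 - (-M0 + 1)) - (M5 - 1 - (-M2 + 1))
        = 2 * (M4 + M1) - (M3 + M0) - (M5 + M2) := by ring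
      rw [e2] at hT
      have e3 : (M3 - 1 - (-M0 + 1)) - (M5 - 1 - (-M2 + 1)) = (M3 + M0) - (M5 + M2) := by ring
      rw [e3] at hT
      have e4 : (M3 - 1 + (M5 - 1) - (M4 - 1) - (-M1 + 1 - (-M0 + 1) - (-M2 + 1)))
        = ((M3 + M5 - M4) - (M0 + M2 - M1)) := by ring
      rw [e4] at hT
      exact hT)
  simpa only [add_assoc] using hfin

end Pool.Agent.H17.Disk
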