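import Mathlib
import Pool.Agent.H17.Disk.Arc2
import Pool.Agent.H45.DiskLat

/-!
Second-order lower bounds for the sectors of 60 degrees, in lattice coordinates.
-/

set_option autoImplicit false
set_option maxHeartbeats 1000000

open MeasureTheory Set
open scoped ENNReal Real

namespace Pool.Agent.H17.Disk

open Pool.Agent.H45.Disk

theorem W_val {a b m m' θ : ℝ} (hm : √3 * a * Real.cos θ + (a + 2 * b) * Real.sin θ = √3 * m)
    (hm' : -(√3 * a) * Real.sin θ + (a + 2 * b) * Real.cos θ = 2 * m' - m) (ψ : ℝ) :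
    W (√3 * a) (a + 2 * b) (θ + ψ)
    = 4 * (m * Real.sin (π / 3 - ψ) + m' * Real.sin ψ)
      * (m' * Real.cos ψ - m * Real.cos (π / 3 - ψ)) := by
  have h1 : √3 * a * Real.cos (θ + ψ) + (a + 2 * b) * Real.sin (θ + ψ)
      = 2 * (m * Real.sin (π / 3 - ψ) + m' * Real.sin ψ) := by
    rw [Real.sin_add, Real.cos_add, Real.sin_sub,
      Real.cos_pi_div_three, Real.sin_pi_div_three]
    linear_combination (Real.cos ψ) * hm + (Real.sin ψ) * hm'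
  have h2 : (a + 2 * b) * Real.cos (θ + ψ) - √3 * a * Real.sin (θ + ψ)
      = 2 * (m' * Real.cos ψ - m * Real.cos (π / 3 - ψ)) := by
    rw [Real.sin_add, Real.cos_add, Real.cos_sub,
      Real.cos_pi_div_three, Real.sin_pi_div_three]
    linear_combination (Real.cos ψ) * hm' - (Real.sin ψ) * hm
  unfold W
  rw [h1, h2]
  ring

/-- a point of the configuration, in lattice coordinates -/
def Good (U : Set (ℝ × ℝ)) (r D : ℝ) (p : ℝ × ℝ) : Prop :=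
  (√3 * p.1) ^ 2 + (p.1 + 2 * p.2) ^ 2 ≤ D ^ 2 ∧
    ∀ q : ℝ × ℝ, (q.1 - √3 * p.1) ^ 2 + (q.2 - (p.1 + 2 * p.2)) ^ 2 ≤ r ^ 2 → q ∈ U

theorem sector_lower2 {U : Set (ℝ × ℝ)} {r κ D θ θ' ψ m1 m1' m2 m2' c1 c2 s1 s2 : ℝ}
    {u v : ℝ × ℝ}
    (hθ : θ' = θ + π / 3) (hψ0 : 0 ≤ ψ) (hψ1 : ψ ≤ π / 3) (hD0 : 0 ≤ D)
    (hDκ : 4 * D ≤ κ) (hr : κ ^ 2 + D ^ 2 ≤ r ^ 2) (hr0 : 0 ≤ r)
    (hu : Good U r D u) (hv : Good U r D v)
    (hm1 : √3 * u.1 * Real.cos θ + (u.1 + 2 * u.2) * Real.sin θ = √3 * m1)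
    (hm1' : -(√3 * u.1) * Real.sin θ + (u.1 + 2 * u.2) * Real.cos θ = 2 * m1' - m1)
    (hm2 : √3 * v.1 * Real.cos θ + (v.1 + 2 * v.2) * Real.sin θ = √3 * m2)
    (hm2' : -(√3 * v.1) * Real.sin θ + (v.1 + 2 * v.2) * Real.cos θ = 2 * m2' - m2)
    (hc1 : Real.cos ψ = c1) (hc2 : Real.cos (π / 3 - ψ) = c2)
    (hs1 : Real.sin ψ = s1) (hs2 : Real.sin (π / 3 - ψ) = s2) :
    ENNReal.ofReal (r ^ 2 / 2 * (π / 3) + r * (2 * (m1 * (c2 - 1 / 2) + m1' * (1 - c1)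
      + m2 * (1 - c2) + m2' * (c1 - 1 / 2)))
      + (√3 * m1 * (2 * m1' - m1) - 4 * (m1 * s2 + m1' * s1) * (m1' * c1 - m1 * c2)
        + 4 * (m2 * s2 + m2' * s1) * (m2' * c1 - m2 * c2) - √3 * m2' * (m2' - 2 * m2)) / 2
      - (r - κ) * D * (π / 3)) ≤ arc U θ θ' := by
  have h1 := arc_lower2 (U := U) (s := θ + 0) (t := θ + ψ) (by linarith) hD0 hu.1 hDκ hr hr0 hu.2
  have h2 := arc_lower2 (U := U) (s := θ + ψ) (t := θ + π / 3) (by linarith) hD0 hv.1 hDκ hr hr0 hv.2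
  rw [trig_m hm1 hm1', W_val hm1 hm1' 0, W_val hm1 hm1' ψ] at h1
  rw [trig_m hm2 hm2', W_val hm2 hm2' ψ, W_val hm2 hm2' (π / 3)] at h2
  rw [hθ, arc_add U (show θ ≤ θ + ψ by linarith) (show θ + ψ ≤ θ + π / 3 by linarith)]
  rw [add_zero] at h1
  refine le_trans ?_ (add_le_add h1 h2)
  refine le_trans ?_ ENNReal.ofReal_add_le
  apply ENNReal.ofReal_le_ofReal
  rw [hc1, hc2, hs1, hs2]
  simp only [Real.cos_zero, Real.sin_zero, sub_zero, sub_self, Real.cos_pi_div_three,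
    Real.sin_pi_div_three]
  apply le_of_eq
  ring

theorem sin_pi3_pi6 : Real.sin (π / 3 - π / 6) = 1 / 2 := by
  rw [show π / 3 - π / 6 = π / 6 by ring, Real.sin_pi_div_six]

/-- One sector: general 30 degree breakpoint. -/
theorem sector_gen2 {U : Set (ℝ × ℝ)} {r κ D θ θ' M α β M' : ℝ} {u v : ℝ × ℝ}
    (hθ : θ' = θ + π / 3) (hD0 : 0 ≤ D)
    (hDκ : 4 * D ≤ κ) (hr : κ ^ 2 + D ^ 2 ≤ r ^ 2) (hr0 : 0 ≤ r)
    (hu : Good U r D u) (hv : Good U r D v)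
    (hm1 : √3 * u.1 * Real.cos θ + (u.1 + 2 * u.2) * Real.sin θ = √3 * M)
    (hm1' : -(√3 * u.1) * Real.sin θ + (u.1 + 2 * u.2) * Real.cos θ = 2 * α - M)
    (hm2 : √3 * v.1 * Real.cos θ + (v.1 + 2 * v.2) * Real.sin θ = √3 * β)
    (hm2' : -(√3 * v.1) * Real.sin θ + (v.1 + 2 * v.2) * Real.cos θ = 2 * M' - β) :
    ENNReal.ofReal (r ^ 2 / 2 * (π / 3) + r * ((√3 - 1) * (M + M') + (2 - √3) * (α + β))
      + √3 * (M * α + M' * β - (α ^ 2 + β ^ 2) / 2) - (r - κ) * D * (π / 3))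
      ≤ arc U θ θ' := by
  have h := sector_lower2 hθ (ψ := π / 6) (by positivity) (by linarith [Real.pi_pos]) hD0
    hDκ hr hr0 hu hv hm1 hm1' hm2 hm2' Real.cos_pi_div_six cos_pi3_pi6 Real.sin_pi_div_six
    sin_pi3_pi6
  refine le_trans (ENNReal.ofReal_le_ofReal (le_of_eq ?_)) h
  ring

theorem sin_psi0' : Real.sin (π / 3 - psi0) = 13 / 19 := by
  rw [Real.sin_sub, cos_psi0, sin_psi0, Real.cos_pi_div_three, Real.sin_pi_div_three]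
  linear_combination (21 / 76) * sqrt3_sq

/-- One sector in the special situation. -/
theorem sector_spec2 {U : Set (ℝ × ℝ)} {r κ D θ θ' α β : ℝ} {u v : ℝ × ℝ}
    (hθ : θ' = θ + π / 3) (hD0 : 0 ≤ D)
    (hDκ : 4 * D ≤ κ) (hr : κ ^ 2 + D ^ 2 ≤ r ^ 2) (hr0 : 0 ≤ r)
    (hu : Good U r D u) (hv : Good U r D v)
    (hm1 : √3 * u.1 * Real.cos θ + (u.1 + 2 * u.2) * Real.sin θ = √3 * 4)
    (hm1' : -(√3 * u.1) * Real.sin θ + (u.1 + 2 * u.2) * Real.cos θ = 2 * α - 4)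
    (hm2 : √3 * v.1 * Real.cos θ + (v.1 + 2 * v.2) * Real.sin θ = √3 * β)
    (hm2' : -(√3 * v.1) * Real.sin θ + (v.1 + 2 * v.2) * Real.cos θ = 2 * 4 - β)
    (hs : (α = 3 ∧ β = 3) ∨ (α = 2 ∧ β = 3) ∨ (α = 3 ∧ β = 2)) :
    ENNReal.ofReal (r ^ 2 / 2 * (π / 3)
      + r * (4 + 2 * √3 - (6 - α - β) * (2 - 20 * √3 / 19))
      + √3 * (15 - (6 - α - β) * (389 / 361)) - (r - κ) * D * (π / 3)) ≤ arc U θ θ' := by
  rcases hs with ⟨h1, h2⟩ | ⟨h1, h2⟩ | ⟨h1, h2⟩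
  · have h := sector_gen2 hθ hD0 hDκ hr hr0 hu hv hm1 hm1' hm2 hm2'
    refine le_trans (ENNReal.ofReal_le_ofReal (le_of_eq ?_)) h
    rw [h1, h2]; ring
  · have h := sector_lower2 hθ (ψ := psi0) psi0_nonneg psi0_le hD0
      hDκ hr hr0 hu hv hm1 hm1' hm2 hm2' cos_psi0 cos_psi0' sin_psi0 sin_psi0'
    refine le_trans (ENNReal.ofReal_le_ofReal (le_of_eq ?_)) h
    rw [h1, h2]; ring
  · have h := sector_lower2 hθ (ψ := π / 3 - psi0) (by linarith [psi0_le]) (by linarith [psi0_nonneg])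
      hD0 hDκ hr hr0 hu hv hm1 hm1' hm2 hm2' cos_psi0'
      (by rw [show π / 3 - (π / 3 - psi0) = psi0 by ring, cos_psi0]) sin_psi0'
      (by rw [show π / 3 - (π / 3 - psi0) = psi0 by ring, sin_psi0])
    refine le_trans (ENNReal.ofReal_le_ofReal (le_of_eq ?_)) h
    rw [h1, h2]; ring

end Pool.Agent.H17.Disk
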