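import Mathlib
import Pool.Agent.H17.Disk.Sec2
import Pool.Agent.H17.Disk.Hex2

/-!
Second-order lower bounds for the area of the union of the disks about a set with six pairs of
extreme points.
-/

set_option autoImplicit false
set_option maxHeartbeats 1000000

open MeasureTheory Set
open scoped ENNReal Real

namespace Pool.Agent.H17.Disk

open Pool.Agent.H45.Disk

theorem gen_bound {U : Set (ℝ × ℝ)} (hUm : MeasurableSet U) {r κ D : ℝ} (hD0 : 0 ≤ D)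
    (hDκ : 4 * D ≤ κ) (hr : κ ^ 2 + D ^ 2 ≤ r ^ 2) (hr0 : 0 ≤ r)
    {u0 v0 u1 v1 u2 v2 u3 v3 u4 v4 u5 v5 : ℝ × ℝ}
    (hu0 : Good U r D u0) (hv0 : Good U r D v0)
    (hu1 : Good U r D u1) (hv1 : Good U r D v1)
    (hu2 : Good U r D u2) (hv2 : Good U r D v2)
    (hu3 : Good U r D u3) (hv3 : Good U r D v3)
    (hu4 : Good U r D u4) (hv4 : Good U r D v4)
    (hu5 : Good U r D u5) (hv5 : Good U r D v5)
    {M0 M1 M2 M3 M4 M5 x0 x1 x2 x3 x4 x5 y0 y1 y2 y3 y4 y5 : ℝ}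
    (e0 : -u0.1 = M0) (xe0 : -u0.1 - u0.2 = x0) (f0 : -v0.1 - v0.2 = M1) (ye0 : -v0.1 = y0)
    (e1 : -u1.1 - u1.2 = M1) (xe1 : -u1.2 = x1) (f1 : -v1.2 = M2) (ye1 : -v1.1 - v1.2 = y1)
    (e2 : -u2.2 = M2) (xe2 : u2.1 = x2) (f2 : v2.1 = M3) (ye2 : -v2.2 = y2)
    (e3 : u3.1 = M3) (xe3 : u3.1 + u3.2 = x3) (f3 : v3.1 + v3.2 = M4) (ye3 : v3.1 = y3)
    (e4 : u4.1 + u4.2 = M4) (xe4 : u4.2 = x4) (f4 : v4.2 = M5) (ye4 : v4.1 + v4.2 = y4)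
    (e5 : u5.2 = M5) (xe5 : -u5.1 = x5) (f5 : -v5.1 = M0) (ye5 : v5.2 = y5)
    : ENNReal.ofReal (π * r ^ 2
      + r * (2 * (√3 - 1) * (M0 + M1 + M2 + M3 + M4 + M5) + (2 - √3) * (x0 + y0 + x1 + y1 + x2 + y2 + x3 + y3 + x4 + y4 + x5 + y5))
      + √3 * ((M0 * x0 + M1 * y0 - (x0 ^ 2 + y0 ^ 2) / 2) + (M1 * x1 + M2 * y1 - (x1 ^ 2 + y1 ^ 2) / 2) + (M2 * x2 + M3 * y2 - (x2 ^ 2 + y2 ^ 2) / 2) + (M3 * x3 + M4 * y3 - (x3 ^ 2 + y3 ^ 2) / 2) + (M4 * x4 + M5 * y4 - (x4 ^ 2 + y4 ^ 2) / 2) + (M5 * x5 + M0 * y5 - (x5 ^ 2 + y5 ^ 2) / 2))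
      - (r - κ) * D * (2 * π)) ≤ volume U := by
  have h3 := sqrt3_sq
  have tA0 : ∀ x y : ℝ, √3 * x * Real.cos (-π) + (x + 2 * y) * Real.sin (-π) = √3 * (-x) := by
    intro x y; rw [cs0.1, cs0.2]; ring
  have tB0 : ∀ x y : ℝ, -(√3 * x) * Real.sin (-π) + (x + 2 * y) * Real.cos (-π) = 2 * (-x - y) - (-x) := by
    intro x y; rw [cs0.1, cs0.2]; linear_combination (0) * h3
  have tA1 : ∀ x y : ℝ, √3 * x * Real.cos (-(2 * π / 3)) + (x + 2 * y) * Real.sin (-(2 * π / 3)) = √3 * (-x - y) := by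
    intro x y; rw [cs1.1, cs1.2]; ring
  have tB1 : ∀ x y : ℝ, -(√3 * x) * Real.sin (-(2 * π / 3)) + (x + 2 * y) * Real.cos (-(2 * π / 3)) = 2 * (-y) - (-x - y) := by
    intro x y; rw [cs1.1, cs1.2]; linear_combination (x / 2) * h3
  have tA2 : ∀ x y : ℝ, √3 * x * Real.cos (-(π / 3)) + (x + 2 * y) * Real.sin (-(π / 3)) = √3 * (-y) := by
    intro x y; rw [cs2.1, cs2.2]; ring
  have tB2 : ∀ x y : ℝ, -(√3 * x) * Real.sin (-(π / 3)) + (x + 2 * y) * Real.cos (-(π / 3)) = 2 * (x) - (-y) := by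
    intro x y; rw [cs2.1, cs2.2]; linear_combination (x / 2) * h3
  have tA3 : ∀ x y : ℝ, √3 * x * Real.cos 0 + (x + 2 * y) * Real.sin 0 = √3 * (x) := by
    intro x y; rw [Real.cos_zero, Real.sin_zero]; ring
  have tB3 : ∀ x y : ℝ, -(√3 * x) * Real.sin 0 + (x + 2 * y) * Real.cos 0 = 2 * (x + y) - (x) := by
    intro x y; rw [Real.cos_zero, Real.sin_zero]; linear_combination (0) * h3
  have tA4 : ∀ x y : ℝ, √3 * x * Real.cos (π / 3) + (x + 2 * y) * Real.sin (π / 3) = √3 * (x + y) := by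
    intro x y; rw [Real.cos_pi_div_three, Real.sin_pi_div_three]; ring
  have tB4 : ∀ x y : ℝ, -(√3 * x) * Real.sin (π / 3) + (x + 2 * y) * Real.cos (π / 3) = 2 * (y) - (x + y) := by
    intro x y; rw [Real.cos_pi_div_three, Real.sin_pi_div_three]; linear_combination (-x / 2) * h3
  have tA5 : ∀ x y : ℝ, √3 * x * Real.cos (2 * π / 3) + (x + 2 * y) * Real.sin (2 * π / 3) = √3 * (y) := by
    intro x y; rw [cs5.1, cs5.2]; ring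
  have tB5 : ∀ x y : ℝ, -(√3 * x) * Real.sin (2 * π / 3) + (x + 2 * y) * Real.cos (2 * π / 3) = 2 * (-x) - (y) := by
    intro x y; rw [cs5.1, cs5.2]; linear_combination (-x / 2) * h3
  have g0 := sector_gen2 (U := U) (θ := (-π)) (θ' := (-(2 * π / 3))) (M := M0) (M' := M1) (α := x0) (β := y0)
    (by ring) hD0 hDκ hr hr0 hu0 hv0 (by rw [tA0, ← e0]) (by rw [tB0, ← e0, ← xe0])
    (by rw [tA0, ← ye0]) (by rw [tB0, ← f0, ← ye0])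
  have g1 := sector_gen2 (U := U) (θ := (-(2 * π / 3))) (θ' := (-(π / 3))) (M := M1) (M' := M2) (α := x1) (β := y1)
    (by ring) hD0 hDκ hr hr0 hu1 hv1 (by rw [tA1, ← e1]) (by rw [tB1, ← e1, ← xe1])
    (by rw [tA1, ← ye1]) (by rw [tB1, ← f1, ← ye1])
  have g2 := sector_gen2 (U := U) (θ := (-(π / 3))) (θ' := 0) (M := M2) (M' := M3) (α := x2) (β := y2)
    (by ring) hD0 hDκ hr hr0 hu2 hv2 (by rw [tA2, ← e2]) (by rw [tB2, ← e2, ← xe2])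
    (by rw [tA2, ← ye2]) (by rw [tB2, ← f2, ← ye2])
  have g3 := sector_gen2 (U := U) (θ := 0) (θ' := (π / 3)) (M := M3) (M' := M4) (α := x3) (β := y3)
    (by ring) hD0 hDκ hr hr0 hu3 hv3 (by rw [tA3, ← e3]) (by rw [tB3, ← e3, ← xe3])
    (by rw [tA3, ← ye3]) (by rw [tB3, ← f3, ← ye3])
  have g4 := sector_gen2 (U := U) (θ := (π / 3)) (θ' := (2 * π / 3)) (M := M4) (M' := M5) (α := x4) (β := y4)
    (by ring) hD0 hDκ hr hr0 hu4 hv4 (by rw [tA4, ← e4]) (by rw [tB4, ← e4, ← xe4])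
    (by rw [tA4, ← ye4]) (by rw [tB4, ← f4, ← ye4])
  have g5 := sector_gen2 (U := U) (θ := (2 * π / 3)) (θ' := π) (M := M5) (M' := M0) (α := x5) (β := y5)
    (by ring) hD0 hDκ hr hr0 hu5 hv5 (by rw [tA5, ← e5]) (by rw [tB5, ← e5, ← xe5])
    (by rw [tA5, ← ye5]) (by rw [tB5, ← f5, ← ye5])
  refine le_trans (ENNReal.ofReal_le_ofReal (le_of_eq ?_)) (six_sum hUm g0 g1 g2 g3 g4 g5)
  ring

theorem spec_bound {U : Set (ℝ × ℝ)} (hUm : MeasurableSet U) {r κ D : ℝ} (hD0 : 0 ≤ D)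
    (hDκ : 4 * D ≤ κ) (hr : κ ^ 2 + D ^ 2 ≤ r ^ 2) (hr0 : 0 ≤ r)
    {u0 v0 u1 v1 u2 v2 u3 v3 u4 v4 u5 v5 : ℝ × ℝ}
    (hu0 : Good U r D u0) (hv0 : Good U r D v0)
    (hu1 : Good U r D u1) (hv1 : Good U r D v1)
    (hu2 : Good U r D u2) (hv2 : Good U r D v2)
    (hu3 : Good U r D u3) (hv3 : Good U r D v3)
    (hu4 : Good U r D u4) (hv4 : Good U r D v4)
    (hu5 : Good U r D u5) (hv5 : Good U r D v5)
    {x0 x1 x2 x3 x4 x5 y0 y1 y2 y3 y4 y5 : ℝ}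
    (e0 : -u0.1 = 4) (xe0 : -u0.1 - u0.2 = x0) (f0 : -v0.1 - v0.2 = 4) (ye0 : -v0.1 = y0)
    (e1 : -u1.1 - u1.2 = 4) (xe1 : -u1.2 = x1) (f1 : -v1.2 = 4) (ye1 : -v1.1 - v1.2 = y1)
    (e2 : -u2.2 = 4) (xe2 : u2.1 = x2) (f2 : v2.1 = 4) (ye2 : -v2.2 = y2)
    (e3 : u3.1 = 4) (xe3 : u3.1 + u3.2 = x3) (f3 : v3.1 + v3.2 = 4) (ye3 : v3.1 = y3)
    (e4 : u4.1 + u4.2 = 4) (xe4 : u4.2 = x4) (f4 : v4.2 = 4) (ye4 : v4.1 + v4.2 = y4)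
    (e5 : u5.2 = 4) (xe5 : -u5.1 = x5) (f5 : -v5.1 = 4) (ye5 : v5.2 = y5)
    (s0 : (x0 = 3 ∧ y0 = 3) ∨ (x0 = 2 ∧ y0 = 3) ∨ (x0 = 3 ∧ y0 = 2))
    (s1 : (x1 = 3 ∧ y1 = 3) ∨ (x1 = 2 ∧ y1 = 3) ∨ (x1 = 3 ∧ y1 = 2))
    (s2 : (x2 = 3 ∧ y2 = 3) ∨ (x2 = 2 ∧ y2 = 3) ∨ (x2 = 3 ∧ y2 = 2))
    (s3 : (x3 = 3 ∧ y3 = 3) ∨ (x3 = 2 ∧ y3 = 3) ∨ (x3 = 3 ∧ y3 = 2))
    (s4 : (x4 = 3 ∧ y4 = 3) ∨ (x4 = 2 ∧ y4 = 3) ∨ (x4 = 3 ∧ y4 = 2))
    (s5 : (x5 = 3 ∧ y5 = 3) ∨ (x5 = 2 ∧ y5 = 3) ∨ (x5 = 3 ∧ y5 = 2))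
    : ENNReal.ofReal (π * r ^ 2
      + r * (24 + 12 * √3 - (36 - (x0 + y0 + x1 + y1 + x2 + y2 + x3 + y3 + x4 + y4 + x5 + y5)) * (2 - 20 * √3 / 19))
      + √3 * (90 - (36 - (x0 + y0 + x1 + y1 + x2 + y2 + x3 + y3 + x4 + y4 + x5 + y5)) * (389 / 361))
      - (r - κ) * D * (2 * π)) ≤ volume U := by
  have h3 := sqrt3_sq
  have tA0 : ∀ x y : ℝ, √3 * x * Real.cos (-π) + (x + 2 * y) * Real.sin (-π) = √3 * (-x) := by
    intro x y; rw [cs0.1, cs0.2]; ring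
  have tB0 : ∀ x y : ℝ, -(√3 * x) * Real.sin (-π) + (x + 2 * y) * Real.cos (-π) = 2 * (-x - y) - (-x) := by
    intro x y; rw [cs0.1, cs0.2]; linear_combination (0) * h3
  have tA1 : ∀ x y : ℝ, √3 * x * Real.cos (-(2 * π / 3)) + (x + 2 * y) * Real.sin (-(2 * π / 3)) = √3 * (-x - y) := by
    intro x y; rw [cs1.1, cs1.2]; ring
  have tB1 : ∀ x y : ℝ, -(√3 * x) * Real.sin (-(2 * π / 3)) + (x + 2 * y) * Real.cos (-(2 * π / 3)) = 2 * (-y) - (-x - y) := by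
    intro x y; rw [cs1.1, cs1.2]; linear_combination (x / 2) * h3
  have tA2 : ∀ x y : ℝ, √3 * x * Real.cos (-(π / 3)) + (x + 2 * y) * Real.sin (-(π / 3)) = √3 * (-y) := by
    intro x y; rw [cs2.1, cs2.2]; ring
  have tB2 : ∀ x y : ℝ, -(√3 * x) * Real.sin (-(π / 3)) + (x + 2 * y) * Real.cos (-(π / 3)) = 2 * (x) - (-y) := by
    intro x y; rw [cs2.1, cs2.2]; linear_combination (x / 2) * h3
  have tA3 : ∀ x y : ℝ, √3 * x * Real.cos 0 + (x + 2 * y) * Real.sin 0 = √3 * (x) := by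
    intro x y; rw [Real.cos_zero, Real.sin_zero]; ring
  have tB3 : ∀ x y : ℝ, -(√3 * x) * Real.sin 0 + (x + 2 * y) * Real.cos 0 = 2 * (x + y) - (x) := by
    intro x y; rw [Real.cos_zero, Real.sin_zero]; linear_combination (0) * h3
  have tA4 : ∀ x y : ℝ, √3 * x * Real.cos (π / 3) + (x + 2 * y) * Real.sin (π / 3) = √3 * (x + y) := by
    intro x y; rw [Real.cos_pi_div_three, Real.sin_pi_div_three]; ring
  have tB4 : ∀ x y : ℝ, -(√3 * x) * Real.sin (π / 3) + (x + 2 * y) * Real.cos (π / 3) = 2 * (y) - (x + y) := by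
    intro x y; rw [Real.cos_pi_div_three, Real.sin_pi_div_three]; linear_combination (-x / 2) * h3
  have tA5 : ∀ x y : ℝ, √3 * x * Real.cos (2 * π / 3) + (x + 2 * y) * Real.sin (2 * π / 3) = √3 * (y) := by
    intro x y; rw [cs5.1, cs5.2]; ring
  have tB5 : ∀ x y : ℝ, -(√3 * x) * Real.sin (2 * π / 3) + (x + 2 * y) * Real.cos (2 * π / 3) = 2 * (-x) - (y) := by
    intro x y; rw [cs5.1, cs5.2]; linear_combination (-x / 2) * h3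
  have g0 := sector_spec2 (U := U) (θ := (-π)) (θ' := (-(2 * π / 3))) (α := x0) (β := y0)
    (by ring) hD0 hDκ hr hr0 hu0 hv0 (by rw [tA0, ← e0]) (by rw [tB0, ← e0, ← xe0])
    (by rw [tA0, ← ye0]) (by rw [tB0, ← f0, ← ye0]) s0
  have g1 := sector_spec2 (U := U) (θ := (-(2 * π / 3))) (θ' := (-(π / 3))) (α := x1) (β := y1)
    (by ring) hD0 hDκ hr hr0 hu1 hv1 (by rw [tA1, ← e1]) (by rw [tB1, ← e1, ← xe1])
    (by rw [tA1, ← ye1]) (by rw [tB1, ← f1, ← ye1]) s1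
  have g2 := sector_spec2 (U := U) (θ := (-(π / 3))) (θ' := 0) (α := x2) (β := y2)
    (by ring) hD0 hDκ hr hr0 hu2 hv2 (by rw [tA2, ← e2]) (by rw [tB2, ← e2, ← xe2])
    (by rw [tA2, ← ye2]) (by rw [tB2, ← f2, ← ye2]) s2
  have g3 := sector_spec2 (U := U) (θ := 0) (θ' := (π / 3)) (α := x3) (β := y3)
    (by ring) hD0 hDκ hr hr0 hu3 hv3 (by rw [tA3, ← e3]) (by rw [tB3, ← e3, ← xe3])
    (by rw [tA3, ← ye3]) (by rw [tB3, ← f3, ← ye3]) s3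
  have g4 := sector_spec2 (U := U) (θ := (π / 3)) (θ' := (2 * π / 3)) (α := x4) (β := y4)
    (by ring) hD0 hDκ hr hr0 hu4 hv4 (by rw [tA4, ← e4]) (by rw [tB4, ← e4, ← xe4])
    (by rw [tA4, ← ye4]) (by rw [tB4, ← f4, ← ye4]) s4
  have g5 := sector_spec2 (U := U) (θ := (2 * π / 3)) (θ' := π) (α := x5) (β := y5)
    (by ring) hD0 hDκ hr hr0 hu5 hv5 (by rw [tA5, ← e5]) (by rw [tB5, ← e5, ← xe5])
    (by rw [tA5, ← ye5]) (by rw [tB5, ← f5, ← ye5]) s5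
  refine le_trans (ENNReal.ofReal_le_ofReal (le_of_eq ?_)) (six_sum hUm g0 g1 g2 g3 g4 g5)
  ring

end Pool.Agent.H17.Disk
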