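import Mathlib
import Pool.Agent.H17.Disk.Lat2

/-!
54-point subsets of the triangular lattice: lower bound for the area of the union of the disks of
radius `r ≥ 1000`.
-/

set_option autoImplicit false
set_option maxHeartbeats 2000000

open MeasureTheory Set
open scoped ENNReal Real

namespace Pool.Agent.H17.Disk

open Pool.Agent.H45.Disk

/-- numbers for the general case -/
theorem num_gen {r P A : ℝ} (hr : 1000 ≤ r) (hP : 24 + 12 * √3 ≤ P) (hA : 0 ≤ A) :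
    π * (r ^ 2 + 64) + r * 44.5532 + 1
      ≤ π * r ^ 2 + r * P + √3 * A - (r - (r - 0.2163)) * 20.79 * (2 * π) := by
  have h3 := sqrt3_gt
  have hπ := Real.pi_lt_d4
  have h1 : 44.7846 ≤ P := by linarith
  have h2 : 0 ≤ √3 * A := by positivity
  have h4 : r * 44.7846 ≤ r * P := mul_le_mul_of_nonneg_left h1 (by linarith)
  nlinarith

/-- numbers for the special case -/
theorem num_spec {r : ℝ} (hr : 1000 ≤ r) :
    π * (r ^ 2 + 64) + r * 44.5532 + 1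
      ≤ π * r ^ 2 + r * (24 + 12 * √3 - (36 - 35) * (2 - 20 * √3 / 19))
        + √3 * (90 - (36 - 35) * (389 / 361)) - (r - (r - 0.0321)) * 8 * (2 * π) := by
  have h3 := sqrt3_gt
  have hπ := Real.pi_lt_d4
  have h1 : (44.6078 : ℝ) ≤ 24 + 12 * √3 - (36 - 35) * (2 - 20 * √3 / 19) := by linarith
  have h4 := mul_le_mul_of_nonneg_left h1 (show 0 ≤ r by linarith)
  nlinarith

theorem hex_norm {a b : ℝ} (h1 : a ≤ 4) (h2 : -a ≤ 4) (h3 : b ≤ 4) (h4 : -b ≤ 4)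
    (h5 : a + b ≤ 4) (h6 : -a - b ≤ 4) : (√3 * a) ^ 2 + (a + 2 * b) ^ 2 ≤ 8 ^ 2 := by
  have h33 := sqrt3_sq
  have e : (√3 * a) ^ 2 = 3 * a ^ 2 := by linear_combination (a ^ 2) * h33
  rw [e]
  have ha2 : a ^ 2 ≤ 16 := by nlinarith
  have hb2 : b ^ 2 ≤ 16 := by nlinarith
  have hs2 : (a + b) ^ 2 ≤ 16 := by nlinarith
  rcases le_total 0 a with ha | ha <;> rcases le_total 0 b with hb | hb <;>
    rcases le_total 0 (a + b) with hs | hs <;>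
    nlinarith [mul_nonneg (abs_nonneg a) (abs_nonneg b), mul_self_nonneg a]

theorem box_norm {a b : ℝ} (h1 : a ≤ 6) (h2 : -a ≤ 6) (h3 : b ≤ 6) (h4 : -b ≤ 6) :
    (√3 * a) ^ 2 + (a + 2 * b) ^ 2 ≤ 20.79 ^ 2 := by
  have h33 := sqrt3_sq
  have e : (√3 * a) ^ 2 = 3 * a ^ 2 := by linear_combination (a ^ 2) * h33
  rw [e]
  have ha2 : a ^ 2 ≤ 36 := by nlinarith
  have hb2 : b ^ 2 ≤ 36 := by nlinarith
  nlinarith [sq_nonneg (a - b)]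

theorem prod_aux {M x y : ℝ} (hM : 0 ≤ M) (h : M ≤ x + y) : M * M ≤ M * x + M * y := by
  nlinarith

theorem sq_aux {M x : ℝ} (h1 : x ≤ M) (h2 : -x ≤ M) : x ^ 2 ≤ M * M := by nlinarith

theorem case26 {L T : ℝ} (h1 : 26 ≤ L) (h2 : L ≤ T) :
    24 + 12 * √3 ≤ 2 * (√3 - 1) * L + (2 - √3) * T := by
  have h3 := sqrt3_gt
  have h3' := sqrt3_lt
  have k1 := mul_le_mul_of_nonneg_left h2 (show 0 ≤ 2 - √3 by linarith)
  have k2 := mul_le_mul_of_nonneg_left h1 (show 0 ≤ √3 by linarith)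
  linarith

theorem case25 {L T : ℝ} (h1 : L = 25) (h2 : 33 ≤ T) :
    24 + 12 * √3 ≤ 2 * (√3 - 1) * L + (2 - √3) * T := by
  have h3 := sqrt3_gt
  have h3' := sqrt3_lt
  have k1 := mul_le_mul_of_nonneg_left h2 (show 0 ≤ 2 - √3 by linarith)
  subst h1
  linarith

theorem case24 {L T : ℝ} (h1 : L = 24) (h2 : 36 ≤ T) :
    24 + 12 * √3 ≤ 2 * (√3 - 1) * L + (2 - √3) * T := by
  have h3 := sqrt3_gt
  have h3' := sqrt3_lt
  have k1 := mul_le_mul_of_nonneg_left h2 (show 0 ≤ 2 - √3 by linarith)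
  subst h1
  linarith

theorem case23 {L T : ℝ} (h1 : L = 23) (h2 : 42 ≤ T) :
    24 + 12 * √3 ≤ 2 * (√3 - 1) * L + (2 - √3) * T := by
  have h3 := sqrt3_gt
  have h3' := sqrt3_lt
  have k1 := mul_le_mul_of_nonneg_left h2 (show 0 ≤ 2 - √3 by linarith)
  subst h1
  linarith

theorem kappa1 {r : ℝ} (hr : 1000 ≤ r) : (r - 0.2163) ^ 2 + 20.79 ^ 2 ≤ r ^ 2 := by nlinarith

theorem kappa2 {r : ℝ} (hr : 1000 ≤ r) : (r - 0.0321) ^ 2 + 8 ^ 2 ≤ r ^ 2 := by nlinarith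

theorem width1 {A X : ℤ} (h : 3 * A ^ 2 + X ^ 2 ≤ 506) : A ≤ 12 := by
  by_contra hc
  have h2 : 13 ≤ A := by omega
  nlinarith [sq_nonneg X]

theorem width2 {B X : ℤ} (h : 3 * X ^ 2 + (X + 2 * B) ^ 2 ≤ 506) : B ≤ 12 := by
  by_contra hc
  have h2 : 13 ≤ B := by omega
  nlinarith [sq_nonneg (2 * X + B)]

theorem defic {M0 M1 M2 M3 M4 M5 x0 x1 x2 x3 x4 x5 y0 y1 y2 y3 y4 y5 : ℤ}
    (hL : M0 + M1 + M2 + M3 + M4 + M5 = 24)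
    (hT : x0 + y0 + x1 + y1 + x2 + y2 + x3 + y3 + x4 + y4 + x5 + y5 = 35)
    (cx0 : x0 ≤ M1 - 1) (cy0 : y0 ≤ M0 - 1)
    (cx1 : x1 ≤ M2 - 1) (cy1 : y1 ≤ M1 - 1)
    (cx2 : x2 ≤ M3 - 1) (cy2 : y2 ≤ M2 - 1)
    (cx3 : x3 ≤ M4 - 1) (cy3 : y3 ≤ M3 - 1)
    (cx4 : x4 ≤ M5 - 1) (cy4 : y4 ≤ M4 - 1)
    (cx5 : x5 ≤ M0 - 1) (cy5 : y5 ≤ M5 - 1)
    : ((x0 = M1 - 1 ∧ y0 = M0 - 1) ∨ (x0 = M1 - 2 ∧ y0 = M0 - 1) ∨ (x0 = M1 - 1 ∧ y0 = M0 - 2)) ∧ ((x1 = M2 - 1 ∧ y1 = M1 - 1) ∨ (x1 = M2 - 2 ∧ y1 = M1 - 1) ∨ (x1 = M2 - 1 ∧ y1 = M1 - 2)) ∧ ((x2 = M3 - 1 ∧ y2 = M2 - 1) ∨ (x2 = M3 - 2 ∧ y2 = M2 - 1) ∨ (x2 = M3 - 1 ∧ y2 = M2 - 2)) ∧ ((x3 = M4 - 1 ∧ y3 = M3 - 1) ∨ (x3 = M4 - 2 ∧ y3 = M3 - 1) ∨ (x3 = M4 - 1 ∧ y3 = M3 - 2)) ∧ ((x4 = M5 - 1 ∧ y4 = M4 - 1) ∨ (x4 = M5 - 2 ∧ y4 = M4 - 1) ∨ (x4 = M5 - 1 ∧ y4 = M4 - 2)) ∧ ((x5 = M0 - 1 ∧ y5 = M5 - 1) ∨ (x5 = M0 - 2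 ∧ y5 = M5 - 1) ∨ (x5 = M0 - 1 ∧ y5 = M5 - 2)) := by
  obtain ⟨p0, hp0⟩ : ∃ p : ℤ, x0 = M1 - 1 - p := ⟨M1 - 1 - x0, by ring⟩
  obtain ⟨q0, hq0⟩ : ∃ p : ℤ, y0 = M0 - 1 - p := ⟨M0 - 1 - y0, by ring⟩
  obtain ⟨p1, hp1⟩ : ∃ p : ℤ, x1 = M2 - 1 - p := ⟨M2 - 1 - x1, by ring⟩
  obtain ⟨q1, hq1⟩ : ∃ p : ℤ, y1 = M1 - 1 - p := ⟨M1 - 1 - y1, by ring⟩
  obtain ⟨p2, hp2⟩ : ∃ p : ℤ, x2 = M3 - 1 - p := ⟨M3 - 1 - x2, by ring⟩
  obtain ⟨q2, hq2⟩ : ∃ p : ℤ, y2 = M2 - 1 - p := ⟨M2 - 1 - y2, by ring⟩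
  obtain ⟨p3, hp3⟩ : ∃ p : ℤ, x3 = M4 - 1 - p := ⟨M4 - 1 - x3, by ring⟩
  obtain ⟨q3, hq3⟩ : ∃ p : ℤ, y3 = M3 - 1 - p := ⟨M3 - 1 - y3, by ring⟩
  obtain ⟨p4, hp4⟩ : ∃ p : ℤ, x4 = M5 - 1 - p := ⟨M5 - 1 - x4, by ring⟩
  obtain ⟨q4, hq4⟩ : ∃ p : ℤ, y4 = M4 - 1 - p := ⟨M4 - 1 - y4, by ring⟩
  obtain ⟨p5, hp5⟩ : ∃ p : ℤ, x5 = M0 - 1 - p := ⟨M0 - 1 - x5, by ring⟩
  obtain ⟨q5, hq5⟩ : ∃ p : ℤ, y5 = M5 - 1 - p := ⟨M5 - 1 - y5, by ring⟩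
  have hsum : p0 + p1 + p2 + p3 + p4 + p5 + q0 + q1 + q2 + q3 + q4 + q5 = 1 := by linarith
  have gp0 : 0 ≤ p0 := by linarith
  have gq0 : 0 ≤ q0 := by linarith
  have gp1 : 0 ≤ p1 := by linarith
  have gq1 : 0 ≤ q1 := by linarith
  have gp2 : 0 ≤ p2 := by linarith
  have gq2 : 0 ≤ q2 := by linarith
  have gp3 : 0 ≤ p3 := by linarith
  have gq3 : 0 ≤ q3 := by linarith
  have gp4 : 0 ≤ p4 := by linarith
  have gq4 : 0 ≤ q4 := by linarith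
  have gp5 : 0 ≤ p5 := by linarith
  have gq5 : 0 ≤ q5 := by linarith
  clear hL hT
  have hh0 : (p0 = 0 ∧ q0 = 0) ∨ (p0 = 1 ∧ q0 = 0) ∨ (p0 = 0 ∧ q0 = 1) := by
    clear hp0 hq0 cx0 cy0 hp1 hq1 cx1 cy1 hp2 hq2 cx2 cy2 hp3 hq3 cx3 cy3 hp4 hq4 cx4 cy4 hp5 hq5 cx5 cy5; omega
  have hh1 : (p1 = 0 ∧ q1 = 0) ∨ (p1 = 1 ∧ q1 = 0) ∨ (p1 = 0 ∧ q1 = 1) := by
    clear hp0 hq0 cx0 cy0 hp1 hq1 cx1 cy1 hp2 hq2 cx2 cy2 hp3 hq3 cx3 cy3 hp4 hq4 cx4 cy4 hp5 hq5 cx5 cy5; omega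
  have hh2 : (p2 = 0 ∧ q2 = 0) ∨ (p2 = 1 ∧ q2 = 0) ∨ (p2 = 0 ∧ q2 = 1) := by
    clear hp0 hq0 cx0 cy0 hp1 hq1 cx1 cy1 hp2 hq2 cx2 cy2 hp3 hq3 cx3 cy3 hp4 hq4 cx4 cy4 hp5 hq5 cx5 cy5; omega
  have hh3 : (p3 = 0 ∧ q3 = 0) ∨ (p3 = 1 ∧ q3 = 0) ∨ (p3 = 0 ∧ q3 = 1) := by
    clear hp0 hq0 cx0 cy0 hp1 hq1 cx1 cy1 hp2 hq2 cx2 cy2 hp3 hq3 cx3 cy3 hp4 hq4 cx4 cy4 hp5 hq5 cx5 cy5; omega
  have hh4 : (p4 = 0 ∧ q4 = 0) ∨ (p4 = 1 ∧ q4 = 0) ∨ (p4 = 0 ∧ q4 = 1) := by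
    clear hp0 hq0 cx0 cy0 hp1 hq1 cx1 cy1 hp2 hq2 cx2 cy2 hp3 hq3 cx3 cy3 hp4 hq4 cx4 cy4 hp5 hq5 cx5 cy5; omega
  have hh5 : (p5 = 0 ∧ q5 = 0) ∨ (p5 = 1 ∧ q5 = 0) ∨ (p5 = 0 ∧ q5 = 1) := by
    clear hp0 hq0 cx0 cy0 hp1 hq1 cx1 cy1 hp2 hq2 cx2 cy2 hp3 hq3 cx3 cy3 hp4 hq4 cx4 cy4 hp5 hq5 cx5 cy5; omega
  refine ⟨?_, ?_, ?_, ?_, ?_, ?_⟩
  · rcases hh0 with ⟨h, h'⟩ | ⟨h, h'⟩ | ⟨h, h'⟩
    · left; rw [hp0, hq0, h, h']; constructor <;> ring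
    · right; left; rw [hp0, hq0, h, h']; constructor <;> ring
    · right; right; rw [hp0, hq0, h, h']; constructor <;> ring
  · rcases hh1 with ⟨h, h'⟩ | ⟨h, h'⟩ | ⟨h, h'⟩
    · left; rw [hp1, hq1, h, h']; constructor <;> ring
    · right; left; rw [hp1, hq1, h, h']; constructor <;> ring
    · right; right; rw [hp1, hq1, h, h']; constructor <;> ring
  · rcases hh2 with ⟨h, h'⟩ | ⟨h, h'⟩ | ⟨h, h'⟩
    · left; rw [hp2, hq2, h, h']; constructor <;> ring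
    · right; left; rw [hp2, hq2, h, h']; constructor <;> ring
    · right; right; rw [hp2, hq2, h, h']; constructor <;> ring
  · rcases hh3 with ⟨h, h'⟩ | ⟨h, h'⟩ | ⟨h, h'⟩
    · left; rw [hp3, hq3, h, h']; constructor <;> ring
    · right; left; rw [hp3, hq3, h, h']; constructor <;> ring
    · right; right; rw [hp3, hq3, h, h']; constructor <;> ring
  · rcases hh4 with ⟨h, h'⟩ | ⟨h, h'⟩ | ⟨h, h'⟩
    · left; rw [hp4, hq4, h, h']; constructor <;> ring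
    · right; left; rw [hp4, hq4, h, h']; constructor <;> ring
    · right; right; rw [hp4, hq4, h, h']; constructor <;> ring
  · rcases hh5 with ⟨h, h'⟩ | ⟨h, h'⟩ | ⟨h, h'⟩
    · left; rw [hp5, hq5, h, h']; constructor <;> ring
    · right; left; rw [hp5, hq5, h, h']; constructor <;> ring
    · right; right; rw [hp5, hq5, h, h']; constructor <;> ring

theorem A_nonneg {M0 M1 M2 M3 M4 M5 x0 x1 x2 x3 x4 x5 y0 y1 y2 y3 y4 y5 : ℝ}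
    (h03 : M0 = M3) (h25 : M2 = M5)
    (hx0 : x0 ≤ M1) (hy0 : y0 ≤ M0) (hd0 : M0 ≤ x0 + y5)
    (hx1 : x1 ≤ M2) (hy1 : y1 ≤ M1) (hd1 : M1 ≤ x1 + y0)
    (hx2 : x2 ≤ M3) (hy2 : y2 ≤ M2) (hd2 : M2 ≤ x2 + y1)
    (hx3 : x3 ≤ M4) (hy3 : y3 ≤ M3) (hd3 : M3 ≤ x3 + y2)
    (hx4 : x4 ≤ M5) (hy4 : y4 ≤ M4) (hd4 : M4 ≤ x4 + y3)
    (hx5 : x5 ≤ M0) (hy5 : y5 ≤ M5) (hd5 : M5 ≤ x5 + y4)
    : 0 ≤ (M0 * x0 + M1 * y0 - (x0 ^ 2 + y0 ^ 2) / 2) + (M1 * x1 + M2 * y1 - (x1 ^ 2 + y1 ^ 2) / 2) + (M2 * x2 + M3 * y2 - (x2 ^ 2 + y2 ^ 2) / 2) + (M3 * x3 + M4 * y3 - (x3 ^ 2 + y3 ^ 2) / 2) + (M4 * x4 + M5 * y4 - (x4 ^ 2 + y4 ^ 2) / 2) + (M5 * x5 + M0 * y5 - (x5 ^ 2 + y5 ^ 2) / 2) := by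
  have a0 : x0 ^ 2 ≤ M1 * M1 := sq_aux hx0 (by linarith)
  have b0 : y0 ^ 2 ≤ M0 * M0 := sq_aux hy0 (by linarith)
  have a1 : x1 ^ 2 ≤ M2 * M2 := sq_aux hx1 (by linarith)
  have b1 : y1 ^ 2 ≤ M1 * M1 := sq_aux hy1 (by linarith)
  have a2 : x2 ^ 2 ≤ M3 * M3 := sq_aux hx2 (by linarith)
  have b2 : y2 ^ 2 ≤ M2 * M2 := sq_aux hy2 (by linarith)
  have a3 : x3 ^ 2 ≤ M4 * M4 := sq_aux hx3 (by linarith)
  have b3 : y3 ^ 2 ≤ M3 * M3 := sq_aux hy3 (by linarith)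
  have a4 : x4 ^ 2 ≤ M5 * M5 := sq_aux hx4 (by linarith)
  have b4 : y4 ^ 2 ≤ M4 * M4 := sq_aux hy4 (by linarith)
  have a5 : x5 ^ 2 ≤ M0 * M0 := sq_aux hx5 (by linarith)
  have b5 : y5 ^ 2 ≤ M5 * M5 := sq_aux hy5 (by linarith)
  have c0 := prod_aux (M := M0) (x := x0) (y := y5) (by linarith) hd0
  have c1 := prod_aux (M := M1) (x := x1) (y := y0) (by linarith) hd1
  have c2 := prod_aux (M := M2) (x := x2) (y := y1) (by linarith) hd2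
  have c3 := prod_aux (M := M3) (x := x3) (y := y2) (by linarith) hd3
  have c4 := prod_aux (M := M4) (x := x4) (y := y3) (by linarith) hd4
  have c5 := prod_aux (M := M5) (x := x5) (y := y4) (by linarith) hd5
  linarith

theorem lat_lower3 (s : Finset (ℤ × ℤ)) (hs : s.card = 54) {r : ℝ} (hr : 1000 ≤ r)
    (hdiam : ∀ p ∈ s, ∀ q ∈ s, 3 * (p.1 - q.1) ^ 2 + ((p.1 - q.1) + 2 * (p.2 - q.2)) ^ 2 ≤ 506) :
    ∃ sa sb : ℝ, ∀ U : Set (ℝ × ℝ), MeasurableSet U →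
      (∀ p ∈ s, ∀ q : ℝ × ℝ, (q.1 - √3 * ((p.1 : ℝ) - sa)) ^ 2 +
        (q.2 - (((p.1 : ℝ) - sa) + 2 * ((p.2 : ℝ) - sb))) ^ 2 ≤ r ^ 2 → q ∈ U) →
      ENNReal.ofReal (π * (r ^ 2 + 64) + r * 44.5532 + 1) ≤ volume U := by
  obtain ⟨u0, hu0, v0, hv0, u1, hu1, v1, hv1, u2, hu2, v2, hv2, u3, hu3, v3, hv3, u4, hu4, v4, hv4,
    u5, hu5, v5, hv5, M0, M1, M2, M3, M4, M5, x0, x1, x2, x3, x4, x5, y0, y1, y2, y3, y4, y5,
    ⟨e0, xe0, f0, ye0⟩, ⟨e1, xe1, f1, ye1⟩, ⟨e2, xe2, f2, ye2⟩, ⟨e3, xe3, f3, ye3⟩,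
    ⟨e4, xe4, f4, ye4⟩, ⟨e5, xe5, f5, ye5⟩, hall, ⟨d0, d1, d2, d3, d4, d5⟩, hcase⟩ :=
    hex_main2 s hs
  have ix0 : x0 ≤ M1 := by have := (hall u0 hu0).2.1; linarith
  have iy0 : y0 ≤ M0 := by have := (hall v0 hv0).1; linarith
  have ix1 : x1 ≤ M2 := by have := (hall u1 hu1).2.2.1; linarith
  have iy1 : y1 ≤ M1 := by have := (hall v1 hv1).2.1; linarith
  have ix2 : x2 ≤ M3 := by have := (hall u2 hu2).2.2.2.1; linarith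
  have iy2 : y2 ≤ M2 := by have := (hall v2 hv2).2.2.1; linarith
  have ix3 : x3 ≤ M4 := by have := (hall u3 hu3).2.2.2.2.1; linarith
  have iy3 : y3 ≤ M3 := by have := (hall v3 hv3).2.2.2.1; linarith
  have ix4 : x4 ≤ M5 := by have := (hall u4 hu4).2.2.2.2.2; linarith
  have iy4 : y4 ≤ M4 := by have := (hall v4 hv4).2.2.2.2.1; linarith
  have ix5 : x5 ≤ M0 := by have := (hall u5 hu5).1; linarith
  have iy5 : y5 ≤ M5 := by have := (hall v5 hv5).2.2.2.2.2; linarith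
  -- widths
  have hA12 : M0 + M3 ≤ 12 := by
    have h := hdiam u3 hu3 u0 hu0
    have h1 : u3.1 - u0.1 = M0 + M3 := by linarith
    rw [h1] at h
    exact width1 h
  have hB12 : M2 + M5 ≤ 12 := by
    have h := hdiam u5 hu5 u2 hu2
    have h1 : u5.2 - u2.2 = M2 + M5 := by linarith
    rw [h1] at h
    exact width2 h
  obtain ⟨sa, hsa⟩ : ∃ sa : ℝ, sa = ((M3 : ℝ) - M0) / 2 := ⟨_, rfl⟩
  obtain ⟨sb, hsb⟩ : ∃ sb : ℝ, sb = ((M5 : ℝ) - M2) / 2 := ⟨_, rfl⟩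
  refine ⟨sa, sb, fun U hUm hU => ?_⟩
  have hallr : ∀ p ∈ s, -(p.1 : ℝ) ≤ M0 ∧ -(p.1 : ℝ) - p.2 ≤ M1 ∧ -(p.2 : ℝ) ≤ M2 ∧ (p.1 : ℝ) ≤ M3 ∧
      (p.1 : ℝ) + p.2 ≤ M4 ∧ (p.2 : ℝ) ≤ M5 := by
    intro p hp
    obtain ⟨h0, h1, h2, h3, h4, h5⟩ := hall p hp
    exact ⟨by exact_mod_cast h0, by exact_mod_cast h1, by exact_mod_cast h2, by exact_mod_cast h3,
      by exact_mod_cast h4, by exact_mod_cast h5⟩
  have re0 : -(u0.1 : ℝ) = (M0 : ℝ) := by exact_mod_cast e0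
  have rxe0 : -(u0.1 : ℝ) - (u0.2 : ℝ) = (x0 : ℝ) := by exact_mod_cast xe0
  have rf0 : -(v0.1 : ℝ) - (v0.2 : ℝ) = (M1 : ℝ) := by exact_mod_cast f0
  have rye0 : -(v0.1 : ℝ) = (y0 : ℝ) := by exact_mod_cast ye0
  have rx0 : (x0 : ℝ) ≤ M1 := by exact_mod_cast ix0
  have ry0 : (y0 : ℝ) ≤ M0 := by exact_mod_cast iy0
  have rd0 : (M0 : ℝ) ≤ x0 + y5 := by exact_mod_cast d0
  have re1 : -(u1.1 : ℝ) - (u1.2 : ℝ) = (M1 : ℝ) := by exact_mod_cast e1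
  have rxe1 : -(u1.2 : ℝ) = (x1 : ℝ) := by exact_mod_cast xe1
  have rf1 : -(v1.2 : ℝ) = (M2 : ℝ) := by exact_mod_cast f1
  have rye1 : -(v1.1 : ℝ) - (v1.2 : ℝ) = (y1 : ℝ) := by exact_mod_cast ye1
  have rx1 : (x1 : ℝ) ≤ M2 := by exact_mod_cast ix1
  have ry1 : (y1 : ℝ) ≤ M1 := by exact_mod_cast iy1
  have rd1 : (M1 : ℝ) ≤ x1 + y0 := by exact_mod_cast d1
  have re2 : -(u2.2 : ℝ) = (M2 : ℝ) := by exact_mod_cast e2
  have rxe2 : (u2.1 : ℝ) = (x2 : ℝ) := by exact_mod_cast xe2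
  have rf2 : (v2.1 : ℝ) = (M3 : ℝ) := by exact_mod_cast f2
  have rye2 : -(v2.2 : ℝ) = (y2 : ℝ) := by exact_mod_cast ye2
  have rx2 : (x2 : ℝ) ≤ M3 := by exact_mod_cast ix2
  have ry2 : (y2 : ℝ) ≤ M2 := by exact_mod_cast iy2
  have rd2 : (M2 : ℝ) ≤ x2 + y1 := by exact_mod_cast d2
  have re3 : (u3.1 : ℝ) = (M3 : ℝ) := by exact_mod_cast e3
  have rxe3 : (u3.1 : ℝ) + (u3.2 : ℝ) = (x3 : ℝ) := by exact_mod_cast xe3
  have rf3 : (v3.1 : ℝ) + (v3.2 : ℝ) = (M4 : ℝ) := by exact_mod_cast f3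
  have rye3 : (v3.1 : ℝ) = (y3 : ℝ) := by exact_mod_cast ye3
  have rx3 : (x3 : ℝ) ≤ M4 := by exact_mod_cast ix3
  have ry3 : (y3 : ℝ) ≤ M3 := by exact_mod_cast iy3
  have rd3 : (M3 : ℝ) ≤ x3 + y2 := by exact_mod_cast d3
  have re4 : (u4.1 : ℝ) + (u4.2 : ℝ) = (M4 : ℝ) := by exact_mod_cast e4
  have rxe4 : (u4.2 : ℝ) = (x4 : ℝ) := by exact_mod_cast xe4
  have rf4 : (v4.2 : ℝ) = (M5 : ℝ) := by exact_mod_cast f4
  have rye4 : (v4.1 : ℝ) + (v4.2 : ℝ) = (y4 : ℝ) := by exact_mod_cast ye4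
  have rx4 : (x4 : ℝ) ≤ M5 := by exact_mod_cast ix4
  have ry4 : (y4 : ℝ) ≤ M4 := by exact_mod_cast iy4
  have rd4 : (M4 : ℝ) ≤ x4 + y3 := by exact_mod_cast d4
  have re5 : (u5.2 : ℝ) = (M5 : ℝ) := by exact_mod_cast e5
  have rxe5 : -(u5.1 : ℝ) = (x5 : ℝ) := by exact_mod_cast xe5
  have rf5 : -(v5.1 : ℝ) = (M0 : ℝ) := by exact_mod_cast f5
  have rye5 : (v5.2 : ℝ) = (y5 : ℝ) := by exact_mod_cast ye5
  have rx5 : (x5 : ℝ) ≤ M0 := by exact_mod_cast ix5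
  have ry5 : (y5 : ℝ) ≤ M5 := by exact_mod_cast iy5
  have rd5 : (M5 : ℝ) ≤ x5 + y4 := by exact_mod_cast d5
  have rA12 : (M0 : ℝ) + M3 ≤ 12 := by exact_mod_cast hA12
  have rB12 : (M2 : ℝ) + M5 ≤ 12 := by exact_mod_cast hB12
  have hgen : 24 + 12 * √3 ≤ 2 * (√3 - 1) * ((M0 : ℝ) + M1 + M2 + M3 + M4 + M5)
      + (2 - √3) * ((x0 : ℝ) + y0 + x1 + y1 + x2 + y2 + x3 + y3 + x4 + y4 + x5 + y5) →
      ENNReal.ofReal (π * (r ^ 2 + 64) + r * 44.5532 + 1) ≤ volume U := by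
    intro hP
    have hgood : ∀ p ∈ s, Good U r 20.79 ((p.1 : ℝ) - sa, (p.2 : ℝ) - sb) := by
      intro p hp
      obtain ⟨h0, h1, h2, h3, h4, h5⟩ := hallr p hp
      exact ⟨box_norm (by linarith) (by linarith) (by linarith) (by linarith), hU p hp⟩
    have hb := gen_bound hUm (r := r) (κ := r - 0.2163) (D := 20.79) (by norm_num) (by linarith)
      (kappa1 hr) (by linarith)
      (hgood u0 hu0) (hgood v0 hv0) (hgood u1 hu1) (hgood v1 hv1) (hgood u2 hu2) (hgood v2 hv2) (hgood u3 hu3) (hgood v3 hv3) (hgood u4 hu4) (hgood v4 hv4) (hgood u5 hu5) (hgood v5 hv5)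
      (M0 := M0 + sa) (x0 := x0 + sa + sb) (y0 := y0 + sa)
      (M1 := M1 + sa + sb) (x1 := x1 + sb) (y1 := y1 + sa + sb)
      (M2 := M2 + sb) (x2 := x2 - sa) (y2 := y2 + sb)
      (M3 := M3 - sa) (x3 := x3 - sa - sb) (y3 := y3 - sa)
      (M4 := M4 - sa - sb) (x4 := x4 - sb) (y4 := y4 - sa - sb)
      (M5 := M5 - sb) (x5 := x5 + sa) (y5 := y5 - sb)
      (by simp only; linarith) (by simp only; linarith) (by simp only; linarith) (by simp only; linarith)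
      (by simp only; linarith) (by simp only; linarith) (by simp only; linarith) (by simp only; linarith)
      (by simp only; linarith) (by simp only; linarith) (by simp only; linarith) (by simp only; linarith)
      (by simp only; linarith) (by simp only; linarith) (by simp only; linarith) (by simp only; linarith)
      (by simp only; linarith) (by simp only; linarith) (by simp only; linarith) (by simp only; linarith)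
      (by simp only; linarith) (by simp only; linarith) (by simp only; linarith) (by simp only; linarith)
    have hA := A_nonneg
      (M0 := M0 + sa) (x0 := x0 + sa + sb) (y0 := y0 + sa)
      (M1 := M1 + sa + sb) (x1 := x1 + sb) (y1 := y1 + sa + sb)
      (M2 := M2 + sb) (x2 := x2 - sa) (y2 := y2 + sb)
      (M3 := M3 - sa) (x3 := x3 - sa - sb) (y3 := y3 - sa)
      (M4 := M4 - sa - sb) (x4 := x4 - sb) (y4 := y4 - sa - sb)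
      (M5 := M5 - sb) (x5 := x5 + sa) (y5 := y5 - sb)
      (by rw [hsa]; ring) (by rw [hsb]; ring)
      (by linarith) (by linarith) (by linarith)
      (by linarith) (by linarith) (by linarith)
      (by linarith) (by linarith) (by linarith)
      (by linarith) (by linarith) (by linarith)
      (by linarith) (by linarith) (by linarith)
      (by linarith) (by linarith) (by linarith)
    refine le_trans (ENNReal.ofReal_le_ofReal ?_) hb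
    refine num_gen hr ?_ hA
    refine hP.trans (le_of_eq ?_)
    ring
  have h3 := sqrt3_gt
  have h3' := sqrt3_lt
  rcases hcase with ⟨c1, c2⟩ | ⟨c1, c2⟩ | ⟨c1, c2⟩ | ⟨c1, c2⟩ | ⟨c1, c2, ⟨c3, c4, c5⟩, c6⟩
  · apply hgen
    have k1 : (26 : ℝ) ≤ ((M0 : ℝ) + M1 + M2 + M3 + M4 + M5) := by exact_mod_cast c1
    have k2 : ((M0 : ℝ) + M1 + M2 + M3 + M4 + M5) ≤ ((x0 : ℝ) + y0 + x1 + y1 + x2 + y2 + x3 + y3 + x4 + y4 + x5 + y5) := by exact_mod_cast c2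
    exact case26 k1 k2
  · apply hgen
    have k1 : ((M0 : ℝ) + M1 + M2 + M3 + M4 + M5) = 25 := by exact_mod_cast c1
    have k2 : (33 : ℝ) ≤ ((x0 : ℝ) + y0 + x1 + y1 + x2 + y2 + x3 + y3 + x4 + y4 + x5 + y5) := by exact_mod_cast c2
    exact case25 k1 k2
  · apply hgen
    have k1 : ((M0 : ℝ) + M1 + M2 + M3 + M4 + M5) = 24 := by exact_mod_cast c1
    have k2 : (36 : ℝ) ≤ ((x0 : ℝ) + y0 + x1 + y1 + x2 + y2 + x3 + y3 + x4 + y4 + x5 + y5) := by exact_mod_cast c2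
    exact case24 k1 k2
  · apply hgen
    have k1 : ((M0 : ℝ) + M1 + M2 + M3 + M4 + M5) = 23 := by exact_mod_cast c1
    have k2 : (42 : ℝ) ≤ ((x0 : ℝ) + y0 + x1 + y1 + x2 + y2 + x3 + y3 + x4 + y4 + x5 + y5) := by exact_mod_cast c2
    exact case23 k1 k2
  · obtain ⟨cx0, cy0, cx1, cy1, cx2, cy2, cx3, cy3, cx4, cy4, cx5, cy5⟩ := c6
    have mA : M0 + M3 = 8 := by clear hall; omega
    have mB : M2 + M5 = 8 := by clear hall; omega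
    have mC : M1 + M4 = 8 := by clear hall; omega
    have rA : (M0 : ℝ) + M3 = 8 := by exact_mod_cast mA
    have rB : (M2 : ℝ) + M5 = 8 := by exact_mod_cast mB
    have rC : (M1 : ℝ) + M4 = 8 := by exact_mod_cast mC
    have rw5 : ((M3 : ℝ) + M5 - M4) - (M0 + M2 - M1) = 0 := by exact_mod_cast c5
    have hgood : ∀ p ∈ s, Good U r 8 ((p.1 : ℝ) - sa, (p.2 : ℝ) - sb) := by
      intro p hp
      obtain ⟨h0, h1, h2, h3, h4, h5⟩ := hallr p hp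
      exact ⟨hex_norm (by linarith) (by linarith) (by linarith) (by linarith) (by linarith)
        (by linarith), hU p hp⟩
    obtain ⟨t0, t1, t2, t3, t4, t5⟩ := defic c1 c2 cx0 cy0 cx1 cy1 cx2 cy2 cx3 cy3 cx4 cy4 cx5 cy5
    have rt0 : ((x0 : ℝ) + sa + sb = 3 ∧ (y0 : ℝ) + sa = 3) ∨ ((x0 : ℝ) + sa + sb = 2 ∧ (y0 : ℝ) + sa = 3) ∨ ((x0 : ℝ) + sa + sb = 3 ∧ (y0 : ℝ) + sa = 2) := by
      rcases t0 with ⟨t, t'⟩ | ⟨t, t'⟩ | ⟨t, t'⟩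
      · left; rw [t, t']; push_cast; constructor <;> linarith
      · right; left; rw [t, t']; push_cast; constructor <;> linarith
      · right; right; rw [t, t']; push_cast; constructor <;> linarith
    have rt1 : ((x1 : ℝ) + sb = 3 ∧ (y1 : ℝ) + sa + sb = 3) ∨ ((x1 : ℝ) + sb = 2 ∧ (y1 : ℝ) + sa + sb = 3) ∨ ((x1 : ℝ) + sb = 3 ∧ (y1 : ℝ) + sa + sb = 2) := by
      rcases t1 with ⟨t, t'⟩ | ⟨t, t'⟩ | ⟨t, t'⟩
      · left; rw [t, t']; push_cast; constructor <;> linarith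
      · right; left; rw [t, t']; push_cast; constructor <;> linarith
      · right; right; rw [t, t']; push_cast; constructor <;> linarith
    have rt2 : ((x2 : ℝ) - sa = 3 ∧ (y2 : ℝ) + sb = 3) ∨ ((x2 : ℝ) - sa = 2 ∧ (y2 : ℝ) + sb = 3) ∨ ((x2 : ℝ) - sa = 3 ∧ (y2 : ℝ) + sb = 2) := by
      rcases t2 with ⟨t, t'⟩ | ⟨t, t'⟩ | ⟨t, t'⟩
      · left; rw [t, t']; push_cast; constructor <;> linarith
      · right; left; rw [t, t']; push_cast; constructor <;> linarith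
      · right; right; rw [t, t']; push_cast; constructor <;> linarith
    have rt3 : ((x3 : ℝ) - sa - sb = 3 ∧ (y3 : ℝ) - sa = 3) ∨ ((x3 : ℝ) - sa - sb = 2 ∧ (y3 : ℝ) - sa = 3) ∨ ((x3 : ℝ) - sa - sb = 3 ∧ (y3 : ℝ) - sa = 2) := by
      rcases t3 with ⟨t, t'⟩ | ⟨t, t'⟩ | ⟨t, t'⟩
      · left; rw [t, t']; push_cast; constructor <;> linarith
      · right; left; rw [t, t']; push_cast; constructor <;> linarith
      · right; right; rw [t, t']; push_cast; constructor <;> linarith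
    have rt4 : ((x4 : ℝ) - sb = 3 ∧ (y4 : ℝ) - sa - sb = 3) ∨ ((x4 : ℝ) - sb = 2 ∧ (y4 : ℝ) - sa - sb = 3) ∨ ((x4 : ℝ) - sb = 3 ∧ (y4 : ℝ) - sa - sb = 2) := by
      rcases t4 with ⟨t, t'⟩ | ⟨t, t'⟩ | ⟨t, t'⟩
      · left; rw [t, t']; push_cast; constructor <;> linarith
      · right; left; rw [t, t']; push_cast; constructor <;> linarith
      · right; right; rw [t, t']; push_cast; constructor <;> linarith
    have rt5 : ((x5 : ℝ) + sa = 3 ∧ (y5 : ℝ) - sb = 3) ∨ ((x5 : ℝ) + sa = 2 ∧ (y5 : ℝ) - sb = 3) ∨ ((x5 : ℝ) + sa = 3 ∧ (y5 : ℝ) - sb = 2) := by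
      rcases t5 with ⟨t, t'⟩ | ⟨t, t'⟩ | ⟨t, t'⟩
      · left; rw [t, t']; push_cast; constructor <;> linarith
      · right; left; rw [t, t']; push_cast; constructor <;> linarith
      · right; right; rw [t, t']; push_cast; constructor <;> linarith
    have hb := spec_bound hUm (r := r) (κ := r - 0.0321) (D := 8) (by norm_num) (by linarith)
      (kappa2 hr) (by linarith)
      (hgood u0 hu0) (hgood v0 hv0) (hgood u1 hu1) (hgood v1 hv1) (hgood u2 hu2) (hgood v2 hv2) (hgood u3 hu3) (hgood v3 hv3) (hgood u4 hu4) (hgood v4 hv4) (hgood u5 hu5) (hgood v5 hv5)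
      (x0 := x0 + sa + sb) (y0 := y0 + sa)
      (x1 := x1 + sb) (y1 := y1 + sa + sb)
      (x2 := x2 - sa) (y2 := y2 + sb)
      (x3 := x3 - sa - sb) (y3 := y3 - sa)
      (x4 := x4 - sb) (y4 := y4 - sa - sb)
      (x5 := x5 + sa) (y5 := y5 - sb)
      (by simp only; linarith) (by simp only; linarith) (by simp only; linarith) (by simp only; linarith)
      (by simp only; linarith) (by simp only; linarith) (by simp only; linarith) (by simp only; linarith)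
      (by simp only; linarith) (by simp only; linarith) (by simp only; linarith) (by simp only; linarith)
      (by simp only; linarith) (by simp only; linarith) (by simp only; linarith) (by simp only; linarith)
      (by simp only; linarith) (by simp only; linarith) (by simp only; linarith) (by simp only; linarith)
      (by simp only; linarith) (by simp only; linarith) (by simp only; linarith) (by simp only; linarith)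
      rt0 rt1 rt2 rt3 rt4 rt5
    refine le_trans (ENNReal.ofReal_le_ofReal ?_) hb
    have hT : ((x0 : ℝ) + y0 + x1 + y1 + x2 + y2 + x3 + y3 + x4 + y4 + x5 + y5) = 35 := by exact_mod_cast c2
    have e : ((x0 : ℝ) + sa + sb) + (y0 + sa) + (x1 + sb) + (y1 + sa + sb) + (x2 - sa) + (y2 + sb) + (x3 - sa - sb) + (y3 - sa) + (x4 - sb) + (y4 - sa - sb) + (x5 + sa) + (y5 - sb) = 35 := by rw [← hT]; ring
    rw [e]
    exact num_spec hr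

end Pool.Agent.H17.Disk
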