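import Mathlib
import Pool.Agent.H45.DiskExist
import Pool.Agent.H17.Disk.Lat3

/-!
Radius at least 1000: every 54-point subset of a triangular lattice of minimal distance 2 has a
larger union of disks than the packing `Y0` of helper45.
-/

set_option autoImplicit false
set_option maxHeartbeats 1000000

open MeasureTheory Set Filter Topology
open scoped ENNReal Real RealInnerProductSpace

namespace Pool.Agent.H17.Disk

open Pool.Agent.H45.Disk

theorem kappa3 {r : ℝ} (hr : 1000 ≤ r) : (r - 0.2533) ^ 2 + 22.5 ^ 2 ≤ r ^ 2 := by nlinarith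

theorem W_zero (φ : ℝ) : W 0 0 φ = 0 := by unfold W; ring

theorem W_pi2 (x : ℝ) : W x 0 (π / 2) = 0 := by
  unfold W; rw [Real.cos_pi_div_two]; ring

theorem W_npi2 (x : ℝ) : W x 0 (-(π / 2)) = 0 := by
  unfold W; rw [Real.cos_neg, Real.cos_pi_div_two]; ring

theorem far_lower2 {n : ℕ} (c : Fin n → E2) (i j : Fin n) (h : 22.5 ≤ dist (c i) (c j)) {r : ℝ}
    (hr : 1000 ≤ r) :
    ENNReal.ofReal (π * (r ^ 2 + 64) + r * 44.5532 + 1) ≤ area r c := by
  have hp := Real.pi_pos
  have hr0 : 0 ≤ r := by linarith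
  obtain ⟨p, hpd⟩ : ∃ p, p = c i := ⟨_, rfl⟩
  obtain ⟨q, hqd⟩ : ∃ q, q = c j := ⟨_, rfl⟩
  rw [← hpd, ← hqd] at h
  have hd : 0 < dist p q := by linarith
  set d := dist p q with hdd
  have hnorm : ‖q - p‖ = d := by rw [hdd, dist_comm, dist_eq_norm]
  -- unit vector
  obtain ⟨e, hedef⟩ : ∃ e : E2, e = (1 / d) • (q - p) := ⟨_, rfl⟩
  have he : ‖e‖ = 1 := by
    rw [hedef, norm_smul, hnorm, Real.norm_of_nonneg (by positivity)]
    field_simp
  obtain ⟨b, hb⟩ := exists_basis e he
  obtain ⟨q1, hq1⟩ : ∃ q1 : E2, q1 = p + (22.5 : ℝ) • e := ⟨_, rfl⟩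
  have hsub : Metric.closedBall p r ∩ Metric.closedBall q r ⊆ Metric.closedBall q1 r := by
    intro x hx
    have h1 : p ∈ Metric.closedBall x r := by
      rw [Metric.mem_closedBall, dist_comm]; exact hx.1
    have h2 : q ∈ Metric.closedBall x r := by
      rw [Metric.mem_closedBall, dist_comm]; exact hx.2
    have h3 : q1 ∈ Metric.closedBall x r := by
      have hc := (convex_closedBall x r) h1 h2 (show 0 ≤ 1 - 22.5 / d by
        rw [sub_nonneg, div_le_one hd]; exact h) (show 0 ≤ 22.5 / d by positivity) (by ring)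
      convert hc using 1
      rw [hq1, hedef]
      module
    rw [Metric.mem_closedBall, dist_comm]
    exact h3
  have hvol : volume (Metric.closedBall q r) = volume (Metric.closedBall q1 r) := by
    rw [Measure.addHaar_closedBall_center volume q r, Measure.addHaar_closedBall_center volume q1 r]
  have hcompare : volume (Metric.closedBall p r ∪ Metric.closedBall q1 r)
      ≤ volume (Metric.closedBall p r ∪ Metric.closedBall q r) := by
    have m1 := measure_union_add_inter (μ := volume) (Metric.closedBall p r)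
      (measurableSet_closedBall (x := q) (ε := r))
    have m2 := measure_union_add_inter (μ := volume) (Metric.closedBall p r)
      (measurableSet_closedBall (x := q1) (ε := r))
    have m3 : volume (Metric.closedBall p r ∩ Metric.closedBall q r)
        ≤ volume (Metric.closedBall p r ∩ Metric.closedBall q1 r) :=
      measure_mono (subset_inter inter_subset_left hsub)
    have hfin : volume (Metric.closedBall p r ∩ Metric.closedBall q r) ≠ ⊤ :=
      ((measure_mono inter_subset_left).trans_lt measure_closedBall_lt_top).ne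
    rw [hvol, ← m2] at m1
    have : volume (Metric.closedBall p r ∪ Metric.closedBall q1 r)
        + volume (Metric.closedBall p r ∩ Metric.closedBall q r)
        ≤ volume (Metric.closedBall p r ∪ Metric.closedBall q r)
        + volume (Metric.closedBall p r ∩ Metric.closedBall q r) := by
      rw [m1]; gcongr
    exact (ENNReal.add_le_add_iff_right hfin).mp this
  have hle : volume (Metric.closedBall p r ∪ Metric.closedBall q r) ≤ area r c := by
    unfold area
    apply measure_mono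
    apply union_subset
    · rw [hpd]; exact subset_iUnion (fun i => Metric.closedBall (c i) r) i
    · rw [hqd]; exact subset_iUnion (fun i => Metric.closedBall (c i) r) j
  refine le_trans ?_ (hcompare.trans hle)
  have hU2 : (Metric.closedBall p r ∪ Metric.closedBall q1 r)
      = ⋃ k : Fin 2, Metric.closedBall ((![p, q1] : Fin 2 → E2) k) r := by
    ext x
    simp [Fin.exists_fin_two]
  rw [hU2, volume_union_eq b p _ hr0]
  set U := UD (fun k : Fin 2 => ⟪b 0, (![p, q1] : Fin 2 → E2) k - p⟫)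
    (fun k : Fin 2 => ⟪b 1, (![p, q1] : Fin 2 → E2) k - p⟫) r with hU
  have hUm : MeasurableSet U := (isClosed_UD _ _ _).measurableSet
  have in0 : ∀ z : ℝ × ℝ, (z.1 - 0) ^ 2 + (z.2 - 0) ^ 2 ≤ r ^ 2 → z ∈ U := by
    intro z hz
    refine ⟨0, ?_⟩
    simpa using hz
  have hb10 : ⟪b 1, e⟫ = 0 := by
    rw [← hb]; exact b.orthonormal.2 (by decide)
  have in1 : ∀ z : ℝ × ℝ, (z.1 - 22.5) ^ 2 + (z.2 - 0) ^ 2 ≤ r ^ 2 → z ∈ U := by
    intro z hz
    refine ⟨1, ?_⟩
    have e1 : (![p, q1] : Fin 2 → E2) 1 - p = (22.5 : ℝ) • e := by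
      simp [hq1]
    simp only [e1, inner_smul_right, hb10, hb, real_inner_self_eq_norm_sq, he]
    simpa using hz
  rw [← arc_full hUm, arc_add U (show -π ≤ π / 2 by linarith) (show π / 2 ≤ π by linarith),
    arc_add U (show -π ≤ -(π / 2) by linarith) (show -(π / 2) ≤ π / 2 by linarith)]
  have a1 := arc_lower2 (U := U) (x := 0) (y := 0) (D := 22.5) (κ := r - 0.2533) (r := r)
    (show -π ≤ -(π / 2) by linarith)
    (by norm_num) (by norm_num) (by linarith) (kappa3 hr) hr0 in0
  have a2 := arc_lower2 (U := U) (x := 22.5) (y := 0) (D := 22.5) (κ := r - 0.2533) (r := r)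
    (show -(π / 2) ≤ π / 2 by linarith)
    (by norm_num) (by norm_num) (by linarith) (kappa3 hr) hr0 in1
  have a3 := arc_lower2 (U := U) (x := 0) (y := 0) (D := 22.5) (κ := r - 0.2533) (r := r)
    (show π / 2 ≤ π by linarith)
    (by norm_num) (by norm_num) (by linarith) (kappa3 hr) hr0 in0
  refine le_trans ?_ (add_le_add (add_le_add a1 a2) a3)
  refine le_trans ?_ (add_le_add (ENNReal.ofReal_add_le) le_rfl)
  refine le_trans ?_ ENNReal.ofReal_add_le
  apply ENNReal.ofReal_le_ofReal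
  rw [Real.sin_neg, Real.sin_pi_div_two]
  simp only [W_zero, W_pi2, W_npi2]
  have hπ := Real.pi_lt_d4
  nlinarith

/-- Lattice configurations have large area. -/
theorem lattice_area2 {r : ℝ} (hr : 1000 ≤ r)
    (c : Fin 54 → E2) (hc : Packs c) (p u v : E2) (hu : ‖u‖ = 1) (hv : ‖v‖ = 1) (huv : ‖u - v‖ = 1)
    (hlat : ∀ i, ∃ a b : ℤ, c i = p + ((2 : ℝ) * (a : ℝ)) • u + ((2 : ℝ) * (b : ℝ)) • v) :
    ENNReal.ofReal (π * (r ^ 2 + 64) + r * 44.5532 + 1) ≤ area r c := by
  by_cases h : ∃ i j, 22.5 ≤ dist (c i) (c j)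
  · obtain ⟨i, j, hij⟩ := h
    exact far_lower2 c i j hij hr
  push Not at h
  choose a b hab using hlat
  have huu : ⟪u, u⟫ = 1 := by rw [real_inner_self_eq_norm_sq, hu]; norm_num
  have hvv : ⟪v, v⟫ = 1 := by rw [real_inner_self_eq_norm_sq, hv]; norm_num
  have huv' : ⟪u, v⟫ = 1 / 2 := by
    have h1 := norm_sub_sq_real u v
    rw [hu, hv, huv] at h1
    linarith
  have hvu' : ⟪v, u⟫ = 1 / 2 := by rw [real_inner_comm]; exact huv'
  have h33 := sqrt3_sq
  have hs3 : 0 < √3 := by linarith [sqrt3_gt]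
  -- orthonormal basis
  obtain ⟨w, hw⟩ : ∃ w : Fin 2 → E2, w = ![(1 / √3) • ((2 : ℝ) • u - v), v] := ⟨_, rfl⟩
  have hwo : Orthonormal ℝ w := by
    rw [orthonormal_iff_ite]
    have e00 : ⟪(1 / √3) • ((2 : ℝ) • u - v), (1 / √3) • ((2 : ℝ) • u - v)⟫ = 1 := by
      rw [real_inner_smul_left, real_inner_smul_right, inner_sub_left, inner_sub_right,
        inner_sub_right, real_inner_smul_left, real_inner_smul_right, real_inner_smul_left,
        real_inner_smul_right, huu, hvv, huv', hvu']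
      field_simp
      nlinarith
    have e01 : ⟪(1 / √3) • ((2 : ℝ) • u - v), v⟫ = 0 := by
      rw [real_inner_smul_left, inner_sub_left, real_inner_smul_left, hvv, huv']
      ring
    have e10 : ⟪v, (1 / √3) • ((2 : ℝ) • u - v)⟫ = 0 := by
      rw [real_inner_comm]; exact e01
    refine Fin.forall_fin_two.mpr ⟨Fin.forall_fin_two.mpr ⟨?_, ?_⟩, Fin.forall_fin_two.mpr ⟨?_, ?_⟩⟩
    · rw [if_pos rfl, hw]; exact e00
    · rw [if_neg (by decide), hw]; exact e01
    · rw [if_neg (by decide), hw]; exact e10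
    · rw [if_pos rfl, hw]; exact hvv
  obtain ⟨B, hB⟩ : ∃ B : OrthonormalBasis (Fin 2) ℝ E2, ⇑B = w := by
    have hcard : Fintype.card (Fin 2) = Module.finrank ℝ E2 := by simp
    refine ⟨OrthonormalBasis.mk hwo ?_, OrthonormalBasis.coe_mk _ _⟩
    rw [hwo.linearIndependent.span_eq_top_of_card_eq_finrank hcard]
  have hB0 : B 0 = (1 / √3) • ((2 : ℝ) • u - v) := by rw [hB, hw]; rfl
  have hB1 : B 1 = v := by rw [hB, hw]; rfl
  have hX : ∀ α β : ℝ, ⟪B 0, ((2 : ℝ) * α) • u + ((2 : ℝ) * β) • v⟫ = √3 * α := by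
    intro α β
    rw [hB0, inner_add_right, real_inner_smul_left, real_inner_smul_left,
      inner_smul_right, inner_smul_right, inner_sub_left, inner_sub_left,
      real_inner_smul_left, real_inner_smul_left, huu, huv', hvu', hvv]
    have hq : (1 / √3) * 3 = √3 := by
      rw [div_mul_eq_mul_div, one_mul, div_eq_iff hs3.ne']; linarith [h33]
    linear_combination α * hq
  have hY : ∀ α β : ℝ, ⟪B 1, ((2 : ℝ) * α) • u + ((2 : ℝ) * β) • v⟫ = α + 2 * β := by
    intro α β
    rw [hB1, inner_add_right, inner_smul_right, inner_smul_right, hvu', hvv]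
    ring
  have hinj : Function.Injective (fun i => (a i, b i)) := by
    intro i j hij
    simp only [Prod.mk.injEq] at hij
    by_contra hne
    have h2 : (2 : ℝ) ≤ dist (c i) (c j) := hc hne
    have : c i = c j := by rw [hab i, hab j, hij.1, hij.2]
    rw [this, dist_self] at h2
    linarith
  obtain ⟨s, hsdef⟩ : ∃ s : Finset (ℤ × ℤ), s = Finset.univ.image (fun i => (a i, b i)) := ⟨_, rfl⟩
  have hs : s.card = 54 := by
    rw [hsdef, Finset.card_image_of_injective _ hinj]; simp
  have hmem : ∀ p ∈ s, ∃ i, (a i, b i) = p := by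
    intro p hp
    rw [hsdef, Finset.mem_image] at hp
    obtain ⟨i, -, hi⟩ := hp
    exact ⟨i, hi⟩
  have hdiam : ∀ p ∈ s, ∀ q ∈ s, 3 * (p.1 - q.1) ^ 2 + ((p.1 - q.1) + 2 * (p.2 - q.2)) ^ 2 ≤ 506 := by
    intro p hp q hq
    obtain ⟨i, hi⟩ := hmem p hp
    obtain ⟨j, hj⟩ := hmem q hq
    rw [← hi, ← hj]
    simp only
    have hdiff : c i - c j = ((2 : ℝ) * ((a i : ℝ) - a j)) • u + ((2 : ℝ) * ((b i : ℝ) - b j)) • v := by
      rw [hab i, hab j]
      module
    have h5 := B.sum_sq_inner_right (c i - c j)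
    rw [Fin.sum_univ_two, hdiff, hX, hY, ← hdiff, ← dist_eq_norm] at h5
    have h6 := h i j
    have h7 : dist (c i) (c j) ^ 2 < 22.5 ^ 2 := by
      have := dist_nonneg (x := c i) (y := c j)
      nlinarith
    have e3 : (√3 * ((a i : ℝ) - a j)) ^ 2 = 3 * ((a i : ℝ) - a j) ^ 2 := by
      linear_combination (((a i : ℝ) - a j) ^ 2) * h33
    rw [e3] at h5
    have h8 : 3 * ((a i : ℝ) - a j) ^ 2 + (((a i : ℝ) - a j) + 2 * ((b i : ℝ) - b j)) ^ 2 < 507 := by
      rw [h5]; norm_num at h7 ⊢; linarith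
    have h9 : 3 * (a i - a j) ^ 2 + ((a i - a j) + 2 * (b i - b j)) ^ 2 < 507 := by
      exact_mod_cast h8
    omega
  obtain ⟨sa, sb, hbd⟩ := lat_lower3 s hs hr hdiam
  obtain ⟨p', hp'⟩ : ∃ p' : E2, p' = p + ((2 : ℝ) * sa) • u + ((2 : ℝ) * sb) • v := ⟨_, rfl⟩
  unfold area
  rw [volume_union_eq B p' c (by linarith)]
  have hdiff : ∀ i, c i - p' = ((2 : ℝ) * ((a i : ℝ) - sa)) • u + ((2 : ℝ) * ((b i : ℝ) - sb)) • v := by
    intro i
    rw [hab i, hp']
    module
  simp only [hdiff, hX, hY]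
  apply hbd _ (isClosed_UD _ _ _).measurableSet
  intro x hx q hq
  obtain ⟨i, hi⟩ := hmem x hx
  refine ⟨i, ?_⟩
  rw [← hi] at hq
  exact hq

theorem Y0_better {r : ℝ} (hr : 1000 ≤ r)
    (c : Fin 54 → E2) (hc : Packs c) (p u v : E2) (hu : ‖u‖ = 1) (hv : ‖v‖ = 1) (huv : ‖u - v‖ = 1)
    (hlat : ∀ i, ∃ a b : ℤ, c i = p + ((2 : ℝ) * (a : ℝ)) • u + ((2 : ℝ) * (b : ℝ)) • v) :
    area r Y0 < area r c := by
  refine lt_of_lt_of_le (lt_of_le_of_lt (Y0_area (by linarith)) ?_)
    (lattice_area2 hr c hc p u v hu hv huv hlat)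
  rw [ENNReal.ofReal_lt_ofReal_iff]
  · linarith
  · have := Real.pi_pos
    positivity

theorem exists_densest {r : ℝ} (hr : 1000 ≤ r) :
    ∃ c : Fin 54 → E2, Packs c ∧ ∀ x : Fin 54 → E2, Packs x → area r c ≤ area r x := by
  have hπ := Real.pi_lt_d4
  have hp := Real.pi_pos
  refine exists_minimizer (κ := r - 0.46) (by linarith) (by nlinarith) (by linarith) ?_
  refine lt_of_le_of_lt (Y0_area (by linarith)) ?_
  rw [ENNReal.ofReal_lt_ofReal_iff]
  · have e : π * (r - 0.46) ^ 2 + (r - 0.46) * 60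
        = π * r ^ 2 + (60 * r - π * (0.92 * r)) + (π * 0.2116 - 27.6) := by ring
    rw [e]
    have h1 : π * (0.92 * r) ≤ 3.1416 * (0.92 * r) :=
      mul_le_mul_of_nonneg_right hπ.le (by linarith)
    nlinarith
  · have h1 : 0 < r - 0.46 := by linarith
    positivity

end Pool.Agent.H17.Disk
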